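import Pool.Agent.Work.MP_11a08a_al.Mb.Defs

/-!
The chain of ideals attached to the series.
-/

set_option autoImplicit false

open scoped commutatorElement

namespace Pool.Agent.Work.MP_11a08a_al.Mb

open Pool.Agent.Work.MP_11a08a_al.Fr (cz cj)

theorem mbchain_ne {R K : Type} [CommRing R] [Field K] (χ : AddChar R K) (x : R) : χ x ≠ 0 :=
  fun h => by
    have := χ.map_add_eq_mul x (-x)
    rw [add_neg_cancel, χ.map_zero_eq_one, h, zero_mul] at this
    exact one_ne_zero this

theorem mbchain_surj {G : Type} [Group G] [Finite G] {P Q : Subgroup G} (hP : P.Normal)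
    (hQ : Q.Normal) (h : G) (hf : ∀ a ∈ Q, ⁅h, a⁆ ∈ P → a ∈ P) {a : G} (ha : a ∈ Q) :
    ∃ b ∈ Q, ⁅h, b⁆⁻¹ * a ∈ P := by
  have hT : (Q.map (QuotientGroup.mk' P)).Normal := hQ.map _ (QuotientGroup.mk'_surjective P)
  let f : Q.map (QuotientGroup.mk' P) → Q.map (QuotientGroup.mk' P) := fun t =>
    ⟨⁅QuotientGroup.mk' P h, (t : G ⧸ P)⁆, by
      rw [commutatorElement_def]
      exact Subgroup.mul_mem _ (hT.conj_mem _ t.2 _) (Subgroup.inv_mem _ t.2)⟩
  have inj : Function.Injective f := by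
    rintro ⟨_, b, hb, rfl⟩ ⟨_, c, hc, rfl⟩ e
    have e1 : ⁅QuotientGroup.mk' P h, QuotientGroup.mk' P b⁆ =
        ⁅QuotientGroup.mk' P h, QuotientGroup.mk' P c⁆ := congrArg Subtype.val e
    have e2 : QuotientGroup.mk' P ⁅h, c⁻¹ * b⁆ = 1 := by
      rw [map_commutatorElement, map_mul, map_inv]
      generalize QuotientGroup.mk' P h = x at e1 ⊢
      generalize QuotientGroup.mk' P b = y at e1 ⊢
      generalize QuotientGroup.mk' P c = z at e1 ⊢
      simp only [commutatorElement_def] at e1 ⊢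
      calc x * (z⁻¹ * y) * x⁻¹ * (z⁻¹ * y)⁻¹
          = x * z⁻¹ * x⁻¹ * (x * y * x⁻¹ * y⁻¹) * z := by group
        _ = x * z⁻¹ * x⁻¹ * (x * z * x⁻¹ * z⁻¹) * z := by rw [e1]
        _ = 1 := by group
    have e3 := hf _ (Q.mul_mem (Q.inv_mem hc) hb) ((QuotientGroup.eq_one_iff _).1 e2)
    exact Subtype.ext (QuotientGroup.eq.2 e3).symm
  obtain ⟨⟨_, b, hb, rfl⟩, e⟩ := Finite.surjective_of_injective inj ⟨_, a, ha, rfl⟩
  refine ⟨b, hb, QuotientGroup.eq.1 ?_⟩
  exact (map_commutatorElement (QuotientGroup.mk' P) h b).trans (congrArg Subtype.val e)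

theorem chain : StmtChain := by
  intro G L R _ _ _ _ B N hB χ u Ψ A e hR hS hA hc
  have nor : ∀ i, (if i ≤ e then A i else B).Normal := fun i => by
    split_ifs with h
    exacts [hS.normal i h, hB]
  choose J hJ using fun i => hR.idl _ (nor i)
  have mono : ∀ k i, i + k = e → A i ≤ B := fun k => by
    induction k with
    | zero => exact fun i h => (show i = e from h) ▸ hA
    | succ k ih => exact fun i h => (hS.le i (by omega)).trans (ih (i + 1) (by omega))
  have one : ∀ y, Ψ 1 y = 1 := fun y => by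
    have := hR.mul 1 1 y
    rw [mul_one] at this
    exact mul_right_cancel₀ (mbchain_ne (Ψ 1) y) (this.symm.trans (one_mul _).symm)
  have key : ∀ (g : N) (b c : B) (y : R), (c : G) = ⁅(g : G)⁻¹, (b : G)⁆ →
      Ψ b ((u g - 1) * y) = Ψ c y := fun g b c y h => by
    have e1 : cj hB g b = c * b := Subtype.ext (by
      change (g : G)⁻¹ * b * g = c * b
      rw [h, commutatorElement_def]
      group)
    have e2 := hR.act b g y
    rw [e1, hR.mul, show u g * y = (u g - 1) * y + y by ring, AddChar.map_add_eq_mul] at e2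
    exact mul_right_cancel₀ (mbchain_ne _ _) e2
  have mem : ∀ (g : G) (b : B), ⁅g, (b : G)⁆ ∈ B := fun g b => by
    rw [commutatorElement_def]
    exact B.mul_mem (hB.conj_mem _ b.2 _) (B.inv_mem b.2)
  refine ⟨J, (Ideal.eq_top_iff_one _).2 ((hJ 0 1).2 fun a ha => ?_), ?_, fun i hi g => ?_⟩
  · rw [if_pos (Nat.zero_le e), hS.bot, Subgroup.mem_bot] at ha
    rw [show a = 1 from Subtype.ext ha, one]
  · refine eq_bot_iff.2 fun y hy => hR.sep y fun a => (hJ _ y).1 hy a ?_
    rw [if_neg (by omega)]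
    exact a.2
  · have tr : (∀ b : B, (b : G) ∈ (if i + 1 ≤ e then A (i + 1) else B) →
        ⁅(g : G)⁻¹, (b : G)⁆ ∈ A i) → Triv J i (u g) := fun h y hy => (hJ _ _).2 fun b hb => by
      rw [key g b ⟨_, mem _ b⟩ y rfl]
      refine (hJ _ y).1 hy _ ?_
      rw [if_pos (by omega)]
      exact h b hb
    rcases Nat.lt_succ_iff_lt_or_eq.1 hi with h | rfl
    · rcases hS.alt i h (g : G)⁻¹ with h1 | h1
      · refine .inl (tr fun b hb => h1 _ ?_)
        rwa [if_pos (by omega)] at hb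
      · refine .inr fun y hy hy' => (hJ _ _).2 fun a ha => ?_
        rw [if_pos (by omega)] at ha
        obtain ⟨b, hb, h2⟩ := mbchain_surj (hS.normal i h.le) (hS.normal (i + 1) h) _ h1 ha
        have hbB : b ∈ B := mono (e - (i + 1)) (i + 1) (by omega) hb
        have e1 : a = ⟨_, mem (g : G)⁻¹ ⟨b, hbB⟩⟩ * ⟨_, mono (e - i) i (by omega) h2⟩ :=
          Subtype.ext (mul_inv_cancel_left _ _).symm
        rw [e1, hR.mul, ← key g ⟨b, hbB⟩ _ y rfl, (hJ _ _).1 hy' _ (by rwa [if_pos (by omega)]),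
          (hJ _ _).1 hy _ (by rwa [if_pos (by omega)]), one_mul]
    · refine .inl (tr fun b _ => ?_)
      rw [← commutatorElement_inv]
      exact (A i).inv_mem (hc _ b.2 _)

end Pool.Agent.Work.MP_11a08a_al.Mb
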