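import Pool.Agent.Work.MP_11a08a_al.Mb.Defs
import Pool.Agent.Work.MP_11a08a_al.Mx.Count

set_option autoImplicit false

open Finset

namespace Pool.Agent.Work.MP_11a08a_al.Mb

open Pool.Agent.Work.MP_11a08a_al.Fr (cz cj)
open Pool.Agent.Work.MP_11a08a_al.Mx (Stab mxcount_mul mxcount_one mxcount_out mxcount_iff
  mxcount_ne)

theorem count (h1 : StmtNT) (h2 : StmtRing) (h3 : StmtChain) : StmtCount := by
  classical
  intro ε hε q e
  obtain ⟨c0, hc0, H⟩ := h1 q (e + 1) ε hε
  refine ⟨c0, hc0, ?_⟩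
  intro L G _ _ _ B N hB A hSer hAB hBA hN χ a β hC ⟨x0, hx0⟩
  set g0 : G := x0.out with hg0
  let χ2 : B →* L :=
    { toFun := fun b => χ (cj hB g0 b)
      map_one' := by
        rw [← χ.map_one]; congr 1; apply Subtype.ext; simp [cj]
      map_mul' := fun b b' => by
        rw [← χ.map_mul]; congr 1; apply Subtype.ext
        simp only [cj, Subgroup.coe_mul]
        group }
  obtain ⟨R, _, _, u, Ψ, hcard, hD⟩ :=
    h2 G B N hB (fun x hx y hy => hAB (hN x hx y hy)) L χ2
  obtain ⟨J, hJ0, hJe, hJ⟩ := h3 G L R B N hB χ2 u Ψ A e hD hSer hAB hBA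
  have hfaith := hD.sep
  have hΨ : ∀ (b : B) (n : N), Ψ b (u n) = χ2 (cj hB n b) := by
    intro b n
    rw [← hD.one, ← hD.act, mul_one]
  have hval : ∀ (n : N) (b : B), Ψ b (u n) = χ (cj hB (n * g0) b) := by
    intro n b
    rw [hΨ, mxcount_mul]
    rfl
  have := Fintype.ofFinite N
  set U : Finset R := univ.image u with hU
  have hmem : ∀ n, u n ∈ U := fun n => mem_image_of_mem _ (mem_univ n)
  have hex : ∀ y ∈ U, ∃ n, u n = y := fun y hy => by
    obtain ⟨n, -, hn⟩ := mem_image.1 hy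
    exact ⟨n, hn⟩
  have hG : Af.Grp U := by
    refine ⟨by simpa using hmem 1, fun y hy y' hy' => ?_, fun y hy => ?_⟩
    · obtain ⟨n, rfl⟩ := hex y hy
      obtain ⟨n', rfl⟩ := hex y' hy'
      rw [← map_mul]; exact hmem _
    · obtain ⟨n, rfl⟩ := hex y hy
      exact ⟨u n⁻¹, hmem _, by rw [← map_mul, mul_inv_cancel, map_one]⟩
  have hPi : Chain U J (e + 1) := by
    refine ⟨hJ0, hJe, fun i hi y hy => ?_⟩
    obtain ⟨n, rfl⟩ := hex y hy
    exact hJ i hi n
  have hconj : ∀ n n' : N, ((n : G) * g0)⁻¹ * ((n' : G) * g0) ∈ B ↔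
      ((n⁻¹ * n' : N) : G) ∈ B := by
    intro n n'
    have e3 : ((n : G) * g0)⁻¹ * ((n' : G) * g0) = g0⁻¹ * ((n⁻¹ * n' : N) : G) * g0 := by
      simp only [Subgroup.coe_mul, Subgroup.coe_inv]
      group
    rw [e3]
    constructor
    · intro h
      have h4 := hC.normal.conj_mem _ h g0
      have e4 : g0 * (g0⁻¹ * ((n⁻¹ * n' : N) : G) * g0) * g0⁻¹ = ((n⁻¹ * n' : N) : G) := by group
      rwa [e4] at h4
    · intro h
      exact hC.normal.conj_mem' _ h g0
  have hk : ∀ n n' : N, u n = u n' ↔ ((n⁻¹ * n' : N) : G) ∈ B := by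
    intro n n'
    rw [← hconj, ← mxcount_iff hC]
    constructor
    · intro e1 b
      rw [← hval, ← hval, e1]
    · intro h
      rw [← sub_eq_zero]
      apply hfaith
      intro b
      have e1 : Ψ b (u n) = Ψ b (u n') := by rw [hval, hval, h]
      have e2 := (Ψ b).map_add_eq_mul (u n - u n') (u n')
      rw [sub_add_cancel, e1] at e2
      exact mul_right_cancel₀ (mxcount_ne (Ψ b) (u n')) (by rw [← e2, one_mul])
  let s : R → N := Function.invFun u
  have hs : ∀ y ∈ U, u (s y) = y := fun y hy => Function.invFun_eq (hex y hy)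
  have hidx : B.relIndex N ≤ #U := by
    have hsurj : Function.Surjective
        (fun y : U => (QuotientGroup.mk (s y) : N ⧸ B.subgroupOf N)) := by
      intro x
      obtain ⟨n, rfl⟩ := QuotientGroup.mk_surjective x
      refine ⟨⟨u n, hmem n⟩, QuotientGroup.eq.2 ?_⟩
      exact (hk _ _).1 (hs _ (hmem n))
    have := Nat.card_le_card_of_surjective _ hsurj
    rw [Nat.card_eq_finsetCard U] at this
    exact this
  have hRG : (Fintype.card R : ℝ) ^ ε ≤ (Nat.card G : ℝ) ^ ε := by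
    apply Real.rpow_le_rpow (Nat.cast_nonneg _) _ hε.le
    exact_mod_cast hcard
  set T := {x : G ⧸ B // ∑ l, β l * χ (cj hB x.out (a l)) ≠ 0} with hT
  have hidx' : ((B.relIndex N : ℕ) : ℝ) ≤ #U := by exact_mod_cast hidx
  have hG0 : (0 : ℝ) ≤ (Nat.card G : ℝ) ^ ε := Real.rpow_nonneg (Nat.cast_nonneg _) _
  have hw : ∃ y ∈ U, ∑ l, β l * Ψ (a l) y ≠ 0 := by
    refine ⟨u 1, hmem 1, ?_⟩
    simp only [hval]
    simpa using hx0
  have h5 := H R L U J hG hPi β (fun l => Ψ (a l)) hw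
  set S := U.filter fun y => ∑ l, β l * Ψ (a l) y ≠ 0 with hS
  have hST : #S ≤ Nat.card T := by
    have hin : ∀ y : S, ∑ l, β l * χ (cj hB
        (QuotientGroup.mk ((s y : G) * g0) : G ⧸ B).out (a l)) ≠ 0 := by
      intro y
      obtain ⟨hy1, hy2⟩ := mem_filter.1 y.2
      simp only [mxcount_out hC, ← hval, hs _ hy1]
      exact hy2
    have hinj : Function.Injective (fun y : S => (⟨_, hin y⟩ : T)) := by
      intro y y' e0
      have e1 := QuotientGroup.eq.1 (congrArg Subtype.val e0)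
      have e4 := (hk _ _).2 ((hconj _ _).1 e1)
      rw [hs _ (mem_filter.1 y.2).1, hs _ (mem_filter.1 y'.2).1] at e4
      exact Subtype.ext e4
    have := Nat.card_le_card_of_injective _ hinj
    rwa [Nat.card_eq_fintype_card, Fintype.card_coe] at this
  have hST' : (#S : ℝ) ≤ Nat.card T := by exact_mod_cast hST
  calc c0 * ((B.relIndex N : ℕ) : ℝ) ≤ c0 * #U := mul_le_mul_of_nonneg_left hidx' hc0.le
    _ ≤ (Fintype.card R : ℝ) ^ ε * #S := by
      have e5 : cnt U (fun y => ∑ l, β l * Ψ (a l) y) = #S := by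
        unfold cnt
        exact congrArg Finset.card (Finset.ext fun y => by simp only [hS, mem_filter])
      rw [← e5]
      exact h5
    _ ≤ (Nat.card G : ℝ) ^ ε * Nat.card T := mul_le_mul hRG hST' (Nat.cast_nonneg _) hG0

end Pool.Agent.Work.MP_11a08a_al.Mb
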