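import Pool.Agent.Work.MP_11a08a_al.Mx.Defs

/-!
Statements for groups with an abelian normal subgroup that has a bounded series of free factors.
-/

set_option autoImplicit false

open Finset
open scoped commutatorElement

namespace Pool.Agent.Work.MP_11a08a_al.Mb

open Pool.Agent.Work.MP_11a08a_al.Fr (cz cj)
open Pool.Agent.Work.MP_11a08a_al.Af (Grp)
open Pool.Agent.Work.MP_11a08a_al.Mx (Stab)

section

variable {R K : Type} [CommRing R] [Field K]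

/-- The ideal generated by the elements `u - 1`. -/
def aug (U : Finset R) : Ideal R := Ideal.span ((fun u => u - 1) '' (U : Set R))

/-- `u` acts trivially on the factor `J i / J (i + 1)`. -/
def Triv (J : ℕ → Ideal R) (i : ℕ) (u : R) : Prop := ∀ y ∈ J i, (u - 1) * y ∈ J (i + 1)

/-- `u` acts without fixed points on the factor `J i / J (i + 1)`. -/
def Inj (J : ℕ → Ideal R) (i : ℕ) (u : R) : Prop :=
  ∀ y ∈ J i, (u - 1) * y ∈ J (i + 1) → y ∈ J (i + 1)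

/-- A chain of ideals with free factors. -/
structure Chain (U : Finset R) (J : ℕ → Ideal R) (e : ℕ) : Prop where
  top : J 0 = ⊤
  bot : J e = ⊥
  alt : ∀ i < e, ∀ u ∈ U, Triv J i u ∨ Inj J i u

/-- The two characters agree on the `j`-th power of the augmentation ideal. -/
def Rel (U : Finset R) (j : ℕ) (x y : AddChar R K) : Prop := ∀ z ∈ aug U ^ j, x z = y z

/-- A sum of products of two characters. -/
noncomputable def ev {ι : Type} [Fintype ι] (β : ι → K) (lam φ : ι → AddChar R K) (u : R) : K :=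
  ∑ l, β l * lam l u * φ l u

open Classical in
/-- The size of the support on `U`. -/
noncomputable def cnt (U : Finset R) (f : R → K) : ℕ := #(U.filter fun u => f u ≠ 0)

/-- The support of `f` controls that of a short nonzero sum of characters trivial on `I`. -/
def Done (U : Finset R) (I : Ideal R) (f : R → K) (n : ℕ) : Prop :=
  ∃ (ι : Type) (_ : Fintype ι) (β : ι → K) (φ : ι → AddChar R K), Fintype.card ι ≤ n ∧
    (∀ l, ∀ y ∈ I, φ l y = 1) ∧ (∃ u ∈ U, ∑ l, β l * φ l u ≠ 0) ∧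
    cnt U (fun u => ∑ l, β l * φ l u) ≤ n * cnt U f

/-- The terms in `T` are removed. -/
def Next (U : Finset R) (I : Ideal R) {ι : Type} [Fintype ι] (β : ι → K)
    (lam φ : ι → AddChar R K) (T : Set ι) (x : AddChar R K) (j n : ℕ) : Prop :=
  ∃ (ι' : Type) (_ : Fintype ι') (β' : ι' → K) (lam' φ' : ι' → AddChar R K) (π : ι' → ι),
    Fintype.card ι' ≤ n ∧ (∀ l, ∀ y ∈ I, φ' l y = 1) ∧ (∃ u ∈ U, ev β' lam' φ' u ≠ 0) ∧
    cnt U (ev β' lam' φ') ≤ n * cnt U (ev β lam φ) ∧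
    ∀ l, π l ∉ T ∧ ∀ i, j ≤ i → Rel U (i + 1) (lam (π l)) x → Rel U i (lam' l) (lam (π l))

theorem Rel.refl (U : Finset R) (j : ℕ) (x : AddChar R K) : Rel U j x x := fun _ _ => rfl

theorem Rel.symm {U : Finset R} {j : ℕ} {x y : AddChar R K} (h : Rel U j x y) : Rel U j y x :=
  fun z hz => (h z hz).symm

theorem Rel.trans {U : Finset R} {j : ℕ} {x y w : AddChar R K} (h : Rel U j x y)
    (h' : Rel U j y w) : Rel U j x w := fun z hz => (h z hz).trans (h' z hz)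

theorem Rel.mono {U : Finset R} {i j : ℕ} {x y : AddChar R K} (h : Rel U i x y) (hij : i ≤ j) :
    Rel U j x y := fun z hz => h z (Ideal.pow_le_pow_right hij hz)

end

/-- Removal of one class of terms. -/
def Kill (j : ℕ) : Prop :=
  ∀ s : ℕ, ∃ n : ℕ, ∀ (R K : Type) [CommRing R] [Field K] (U : Finset R) (I : Ideal R), Grp U →
    ∀ (ι : Type) [Fintype ι] (β : ι → K) (lam φ : ι → AddChar R K) (T : Set ι) (x : AddChar R K),
      Fintype.card ι ≤ s → (∀ l, ∀ y ∈ I, φ l y = 1) → (∀ l ∈ T, Rel U j (lam l) x) →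
      (∃ u ∈ U, ev β lam φ u ≠ 0) → Done U I (ev β lam φ) n ∨ Next U I β lam φ T x j n

/-- The base of the removal. -/
def StmtKill1 : Prop := Kill 1

/-- The step of the removal. -/
def StmtKillS : Prop := ∀ j, Kill j → Kill (j + 1)

/-- Removal of the unipotent part. -/
def StmtPet : Prop :=
  ∀ e s : ℕ, ∃ n : ℕ, ∀ (R K : Type) [CommRing R] [Field K] (U : Finset R) (I : Ideal R), Grp U →
    ∀ (β : Fin s → K) (lam φ : Fin s → AddChar R K), (∀ l, ∀ y ∈ I, φ l y = 1) →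
      (∀ l, ∀ y ∈ aug U ^ e, lam l y = 1) → (∃ u ∈ U, ev β lam φ u ≠ 0) →
      Done U I (ev β lam φ) n

/-- The Fitting decomposition. -/
def StmtFit : Prop :=
  ∀ (R : Type) [CommRing R] [Finite R] (U : Finset R) (J : ℕ → Ideal R) (e : ℕ), Chain U J e →
    ∃ t : R, t * t = t ∧ (∀ y ∈ aug U ^ e, t * y = 0) ∧
      ∀ u ∈ U, (∀ i < e, Triv J i u → ∀ v ∈ U, Triv J i v) →
        ∃ y, 1 - (u - 1) * y ∈ Ideal.span {t}

open Classical in
/-- The case of an almost free action on a quotient. -/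
def StmtQuo : Prop :=
  ∀ η ε : ℝ, 0 < η → 0 < ε → ∀ q d : ℕ, ∃ c : ℝ, 0 < c ∧ ∀ (R K : Type) [CommRing R] [Fintype R]
    [Field K] (U : Finset R) (I : Ideal R), Grp U →
    (Fintype.card R : ℝ) ^ η * #(U.filter fun u => ¬ ∃ y, 1 - (u - 1) * y ∈ I) ≤ (d + 1) * #U →
    ∀ (ι : Type) [Fintype ι] (β : ι → K) (φ : ι → AddChar R K), Fintype.card ι ≤ q →
      (∀ l, ∀ y ∈ I, φ l y = 1) → (∃ u ∈ U, ∑ l, β l * φ l u ≠ 0) →
      c * #U ≤ (Fintype.card R : ℝ) ^ ε * cnt U fun u => ∑ l, β l * φ l u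

open Classical in
/-- The case in which all proper kernels are small. -/
def StmtSmall : Prop :=
  ∀ η ε : ℝ, 0 < η → 0 < ε → ∀ q e : ℕ, ∃ c : ℝ, 0 < c ∧ ∀ (R K : Type) [CommRing R] [Fintype R]
    [Field K] (U : Finset R) (J : ℕ → Ideal R), Grp U → Chain U J e →
    (∀ i < e, (∃ v ∈ U, ¬ Triv J i v) →
      (Fintype.card R : ℝ) ^ η * #(U.filter fun u => Triv J i u) ≤ #U) →
    ∀ (β : Fin q → K) (ψ : Fin q → AddChar R K), (∃ u ∈ U, ∑ l, β l * ψ l u ≠ 0) →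
      c * #U ≤ (Fintype.card R : ℝ) ^ ε * cnt U fun u => ∑ l, β l * ψ l u

/-- The number theoretic theorem for chains with free factors. -/
def StmtNT : Prop :=
  ∀ (q e : ℕ) (ε : ℝ), 0 < ε → ∃ c : ℝ, 0 < c ∧ ∀ (R K : Type) [CommRing R] [Fintype R]
    [Field K] (U : Finset R) (J : ℕ → Ideal R), Grp U → Chain U J e →
    ∀ (β : Fin q → K) (ψ : Fin q → AddChar R K), (∃ u ∈ U, ∑ l, β l * ψ l u ≠ 0) →
      c * #U ≤ (Fintype.card R : ℝ) ^ ε * cnt U fun u => ∑ l, β l * ψ l u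

/-- A normal series on each factor of which every element acts trivially or without fixed
points. -/
structure Ser {G : Type} [Group G] (A : ℕ → Subgroup G) (e : ℕ) : Prop where
  bot : A 0 = ⊥
  normal : ∀ i ≤ e, (A i).Normal
  le : ∀ i < e, A i ≤ A (i + 1)
  alt : ∀ i < e, ∀ g : G, (∀ a ∈ A (i + 1), ⁅g, a⁆ ∈ A i) ∨
    ∀ a ∈ A (i + 1), ⁅g, a⁆ ∈ A i → a ∈ A i

/-- Every element is central modulo `A` or acts on `A ≠ 1` without fixed points. -/
def Out {G : Type} [Group G] (A : Subgroup G) : Prop :=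
  ∀ g : G, (∀ x, ⁅g, x⁆ ∈ A) ∨ (A ≠ ⊥ ∧ ∀ a ∈ A, g * a = a * g → a = 1)

/-- A subgroup of small index that is abelian modulo `A e`. -/
def StmtRed : Prop :=
  ∀ (G : Type) [Group G] [Finite G] (A : ℕ → Subgroup G) (e : ℕ) (H : Subgroup G), Ser A e →
    (∀ a ∈ A e, ∀ b ∈ A e, a * b = b * a) → Out (A e) →
    (∀ x ∈ ⁅H, H⁆, ∀ y ∈ ⁅H, H⁆, ⁅x, y⁆ ∈ cz (A e)) →
    ∃ (N : Subgroup G) (m : ℕ), (∀ x ∈ N, ∀ y ∈ N, ⁅x, y⁆ ∈ A e) ∧ N.index ≤ m * H.index ∧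
      2 ^ m ≤ 2 * Nat.card G

/-- A character with small stabiliser. -/
def StmtMax : Prop :=
  ∀ (L G V : Type) [Field L] [IsAlgClosed L] [Group G] [Finite G] [AddCommGroup V] [Module L V]
    [FiniteDimensional L V] [Nontrivial V] (σ : Representation L G V) (A : Subgroup G), A.Normal →
    (∀ a ∈ A, ∀ b ∈ A, a * b = b * a) →
    (∀ W : Submodule L V, (∀ g, ∀ v ∈ W, σ g v ∈ W) → W = ⊥ ∨ W = ⊤) →
    ∃ (B : Subgroup G) (hB : B.Normal) (χ : B →* L) (v : V), A ≤ B ∧ (∀ g ∈ B, ∀ x, ⁅g, x⁆ ∈ A) ∧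
      v ≠ 0 ∧ (∀ a : B, σ a v = χ a • v) ∧
      ∀ g, (∀ x, ⁅g, x⁆ ∈ A) → (∀ a : B, χ (cj hB g a) = χ a) → g ∈ B

/-- The data of the ring attached to a character. -/
structure RingD {G L R : Type} [Group G] [Field L] [CommRing R] {B N : Subgroup G} (hB : B.Normal)
    (χ : B →* L) (u : N →* R) (Ψ : B → AddChar R L) : Prop where
  sep : ∀ y, (∀ a, Ψ a y = 1) → y = 0
  mul : ∀ a b y, Ψ (a * b) y = Ψ a y * Ψ b y
  act : ∀ a (g : N) y, Ψ a (u g * y) = Ψ (cj hB g a) y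
  one : ∀ a, Ψ a 1 = χ a
  idl : ∀ A : Subgroup G, A.Normal → ∃ I : Ideal R, ∀ y, y ∈ I ↔ ∀ a : B, (a : G) ∈ A → Ψ a y = 1

/-- The ring attached to a character. -/
def StmtRing : Prop :=
  ∀ (G : Type) [Group G] [Finite G] (B N : Subgroup G) (hB : B.Normal),
    (∀ x ∈ N, ∀ y ∈ N, ⁅x, y⁆ ∈ B) → ∀ (L : Type) [Field L] (χ : B →* L),
    ∃ (R : Type) (_ : CommRing R) (_ : Fintype R) (u : N →* R) (Ψ : B → AddChar R L),
      Fintype.card R ≤ Nat.card G ∧ RingD hB χ u Ψ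

/-- The chain of ideals attached to the series. -/
def StmtChain : Prop :=
  ∀ (G L R : Type) [Group G] [Finite G] [Field L] [CommRing R] (B N : Subgroup G) (hB : B.Normal)
    (χ : B →* L) (u : N →* R) (Ψ : B → AddChar R L) (A : ℕ → Subgroup G) (e : ℕ),
    RingD hB χ u Ψ → Ser A e → A e ≤ B → (∀ g ∈ B, ∀ x, ⁅g, x⁆ ∈ A e) →
    ∃ J : ℕ → Ideal R, J 0 = ⊤ ∧ J (e + 1) = ⊥ ∧
      ∀ i < e + 1, ∀ g, Triv J i (u g) ∨ Inj J i (u g)

/-- The number of cosets on which a sparse sum of conjugate character values is nonzero. -/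
def StmtCount : Prop :=
  ∀ ε : ℝ, 0 < ε → ∀ q e : ℕ, ∃ c : ℝ, 0 < c ∧
    ∀ (L G : Type) [Field L] [Group G] [Finite G] (B N : Subgroup G) (hB : B.Normal)
      (A : ℕ → Subgroup G), Ser A e → A e ≤ B → (∀ g ∈ B, ∀ x, ⁅g, x⁆ ∈ A e) →
      (∀ x ∈ N, ∀ y ∈ N, ⁅x, y⁆ ∈ A e) →
      ∀ (χ : B →* L) (a : Fin q → B) (β : Fin q → L), Stab hB χ B →
      (∃ x : G ⧸ B, ∑ l, β l * χ (cj hB x.out (a l)) ≠ 0) →
      c * B.relIndex N ≤ (Nat.card G : ℝ) ^ ε *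
        Nat.card {x : G ⧸ B // ∑ l, β l * χ (cj hB x.out (a l)) ≠ 0}

/-- The dimension is small, or the stabiliser is as small as possible. -/
def StmtEig : Prop :=
  ∀ (L G V : Type) [Field L] [IsAlgClosed L] [Group G] [Finite G] [AddCommGroup V] [Module L V]
    [FiniteDimensional L V] (σ : Representation L G V) (A N : Subgroup G), A.Normal →
    (∀ a ∈ A, ∀ b ∈ A, a * b = b * a) → Out A → (∀ x ∈ N, ∀ y ∈ N, ⁅x, y⁆ ∈ A) →
    (∀ W : Submodule L V, (∀ g, ∀ v ∈ W, σ g v ∈ W) → W = ⊥ ∨ W = ⊤) →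
    Module.finrank L V ≤ N.index ∨
      ∃ (B : Subgroup G) (hB : B.Normal) (χ : B →* L) (v : V), A ≤ B ∧
        (∀ g ∈ B, ∀ x, ⁅g, x⁆ ∈ A) ∧ v ≠ 0 ∧ (∀ a : B, σ a v = χ a • v) ∧ Stab hB χ B

/-- The rank bound over algebraically closed fields. -/
def StmtRep : Prop :=
  ∀ (δ : ℝ), 0 < δ → ∀ q d e : ℕ, ∃ c : ℝ, 0 < c ∧
    ∀ (L G V : Type) [Field L] [IsAlgClosed L] [Group G] [Finite G] [AddCommGroup V] [Module L V]
      [FiniteDimensional L V] (σ : Representation L G V) (A : ℕ → Subgroup G) (H : Subgroup G),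
      Ser A e → (∀ a ∈ A e, ∀ b ∈ A e, a * b = b * a) → Out (A e) → H.index ≤ d →
      (∀ x ∈ ⁅H, H⁆, ∀ y ∈ ⁅H, H⁆, ⁅x, y⁆ ∈ cz (A e)) →
      (∀ W : Submodule L V, (∀ g, ∀ v ∈ W, σ g v ∈ W) → W = ⊥ ∨ W = ⊤) →
      ∀ (h : Fin q → G) (β : Fin q → L), ∑ l, β l • σ (h l) ≠ 0 →
        (Module.finrank L V : ℝ) ≤
          c * (Nat.card G : ℝ) ^ δ * Module.finrank L (LinearMap.range (∑ l, β l • σ (h l)))

/-- Products of free pieces have such a series. -/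
def StmtEmb : Prop :=
  ∀ (G : Type) [Group G] [Finite G] (e : ℕ) (A : Fin (e + 1) → Subgroup G) (H : Subgroup G),
    Mx.MixG A H → ∃ S : ℕ → Subgroup G, Ser S (e + 1) ∧ S (e + 1) = ⨆ i, A i ∧ Out (⨆ i, A i)

end Pool.Agent.Work.MP_11a08a_al.Mb
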