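import Pool.Agent.Work.MP_11a08a_al.Mb.Defs
import Pool.Agent.Work.MP_11a08a_al.Mx.Eig

/-!
The dimension is small, or the stabiliser of the character is as small as possible.
-/

set_option autoImplicit false

open scoped commutatorElement

namespace Pool.Agent.Work.MP_11a08a_al.Mb

open Pool.Agent.Work.MP_11a08a_al.Fr (cz cj)
open Pool.Agent.Work.MP_11a08a_al.Mx (Stab mxeig_common mxeig_triv mxeig_idx)

theorem mbeig_onto {G : Type} [Group G] [Finite G] {A : Subgroup G} (hA : A.Normal) {g : G}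
    (hg : ∀ a ∈ A, g * a = a * g → a = 1) (b : G) (hb : b ∈ A) :
    ∃ a ∈ A, g⁻¹ * a * g = b * a := by
  let f : A → A := fun a => ⟨g⁻¹ * a * g * (a : G)⁻¹,
    A.mul_mem (hA.conj_mem' a a.2 g) (A.inv_mem a.2)⟩
  have hf : Function.Injective f := by
    intro a a' h
    have h1 : g⁻¹ * a * g * (a : G)⁻¹ = g⁻¹ * a' * g * (a' : G)⁻¹ := congrArg Subtype.val h
    refine Subtype.ext (inv_mul_eq_one.1 (hg _ (A.mul_mem (A.inv_mem a'.2) a.2) ?_)).symm
    calc g * ((a' : G)⁻¹ * a)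
        = (a' : G)⁻¹ * g * (g⁻¹ * a' * g * (a' : G)⁻¹) * a := by group
      _ = (a' : G)⁻¹ * g * (g⁻¹ * a * g * (a : G)⁻¹) * a := by rw [h1]
      _ = (a' : G)⁻¹ * a * g := by group
  obtain ⟨a, ha⟩ := Finite.surjective_of_injective hf ⟨b, hb⟩
  have h1 : g⁻¹ * a * g * (a : G)⁻¹ = b := congrArg Subtype.val ha
  exact ⟨a, a.2, by rw [← h1]; group⟩

theorem mbeig_ne {B L : Type} [Group B] [Field L] (χ : B →* L) (a : B) : χ a ≠ 0 := by
  have h : χ a * χ a⁻¹ = 1 := by rw [← map_mul, mul_inv_cancel, map_one]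
  exact left_ne_zero_of_mul_eq_one h

theorem eig (h : StmtMax) : StmtEig := by
  intro L G V _ _ _ _ _ _ _ σ A N hA hAc hout hN hirr
  classical
  rcases subsingleton_or_nontrivial V with hV | hV
  · left
    rw [Module.finrank_zero_of_subsingleton]; exact Nat.zero_le _
  have hσ : ∀ g h w, σ (g * h) w = σ g (σ h w) := fun g h w => by rw [map_mul]; rfl
  obtain ⟨B, hB, χ, v, hAB, hBA, hv0, hχ, hmax⟩ := h L G V σ A hA hAc hirr
  by_cases htriv : ∀ a : B, (a : G) ∈ A → χ a = 1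
  · left
    have hA1 : ∀ a ∈ A, ∀ w, σ a w = w := mxeig_triv σ hirr hA hv0 fun a ha => by
      have := hχ ⟨a, hAB ha⟩
      rwa [htriv ⟨a, hAB ha⟩ ha, one_smul] at this
    obtain ⟨v', hv', hc⟩ := mxeig_common (fun x : N => σ x) (fun x y w => by
      show σ x (σ y w) = σ y (σ x w)
      have e : (x : G) * y = ⁅(x : G), (y : G)⁆ * (y * x) := by
        rw [commutatorElement_def]; group
      rw [← hσ, ← hσ, e, hσ, hA1 _ (hN x x.2 y y.2)])
    exact mxeig_idx σ hirr N hv' fun g hg => hc ⟨g, hg⟩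
  · refine Or.inr ⟨B, hB, χ, v, hAB, hBA, hv0, hχ, hB, fun g hg => ?_, fun c hc a => ?_⟩
    · by_contra hfix
      push Not at hfix
      rcases hout g with h1 | ⟨-, h1⟩
      · exact hg (hmax g h1 hfix)
      · refine htriv fun b hb => ?_
        obtain ⟨a, ha, hab⟩ := mbeig_onto hA h1 b hb
        have h3 : cj hB g ⟨a, hAB ha⟩ = b * ⟨a, hAB ha⟩ := Subtype.ext hab
        have h4 := hfix ⟨a, hAB ha⟩
        rw [h3, map_mul] at h4
        exact mul_right_cancel₀ (mbeig_ne χ _) (h4.trans (one_mul _).symm)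
    · have h3 : cj hB c a = (⟨c, hc⟩ : B)⁻¹ * a * ⟨c, hc⟩ := Subtype.ext rfl
      rw [h3, map_mul, map_mul, mul_right_comm, ← map_mul, inv_mul_cancel, map_one, one_mul]

end Pool.Agent.Work.MP_11a08a_al.Mb
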