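import Pool.Agent.Work.MP_11a08a_al.Mb.Defs

/-!
Products of free pieces have a series with free factors.
-/

set_option autoImplicit false

open scoped commutatorElement Pointwise

namespace Pool.Agent.Work.MP_11a08a_al.Mb

open Pool.Agent.Work.MP_11a08a_al.Fr (cz mem_cz)

/-- Partial joins. -/
def mbemb_S {G : Type} [Group G] (T : ℕ → Subgroup G) : ℕ → Subgroup G
  | 0 => ⊥
  | i + 1 => mbemb_S T i ⊔ T i

theorem mbemb_normal {G : Type} [Group G] (T : ℕ → Subgroup G) (hT : ∀ i, (T i).Normal) :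
    ∀ i, (mbemb_S T i).Normal
  | 0 => (inferInstance : (⊥ : Subgroup G).Normal)
  | i + 1 => by
    have h1 := mbemb_normal T hT i
    have h2 := hT i
    exact Subgroup.sup_normal _ _

theorem mbemb_mono {G : Type} [Group G] (T : ℕ → Subgroup G) : Monotone (mbemb_S T) :=
  monotone_nat_of_le_succ fun _ => le_sup_left

theorem mbemb_comm_mem {G : Type} [Group G] {P : Subgroup G} (hP : P.Normal) (g : G) {a : G}
    (ha : a ∈ P) : ⁅g, a⁆ ∈ P := by
  rw [commutatorElement_def]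
  exact P.mul_mem (hP.conj_mem a ha g) (P.inv_mem ha)

theorem mbemb_split {G : Type} [Group G] {P Q : Subgroup G} (hP : P.Normal) {x : G}
    (hx : x ∈ P ⊔ Q) : ∃ a ∈ P, ∃ b ∈ Q, x = a * b := by
  rw [← SetLike.mem_coe, Subgroup.normal_mul] at hx
  obtain ⟨a, ha, b, hb, e⟩ := hx
  exact ⟨a, ha, b, hb, e.symm⟩

theorem mbemb_mul {G : Type} [Group G] (g a b : G) :
    ⁅g, a * b⁆ = ⁅g, a⁆ * (a * ⁅g, b⁆ * a⁻¹) := by
  simp only [commutatorElement_def]
  group

theorem mbemb_triv {G : Type} [Group G] {P Q : Subgroup G} (hP : P.Normal) {g : G}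
    (hg : ∀ b ∈ Q, g * b = b * g) : ∀ x ∈ P ⊔ Q, ⁅g, x⁆ ∈ P := by
  intro x hx
  obtain ⟨a, ha, b, hb, rfl⟩ := mbemb_split hP hx
  have h1 : ⁅g, b⁆ = 1 := commutatorElement_eq_one_iff_mul_comm.2 (hg b hb)
  rw [mbemb_mul, h1, mul_one, mul_inv_cancel, mul_one]
  exact mbemb_comm_mem hP g ha

theorem mbemb_free {G : Type} [Group G] [Finite G] {P Q : Subgroup G} (hP : P.Normal)
    (hQ : Q.Normal) {g : G} (hg : ∀ b ∈ Q, g * b = b * g → b = 1) :
    ∀ x ∈ P ⊔ Q, ⁅g, x⁆ ∈ P → x ∈ P := by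
  intro x hx hc
  obtain ⟨a, ha, b, hb, rfl⟩ := mbemb_split hP hx
  have hinj : ∀ b ∈ Q, ∀ c ∈ Q, ⁅g, b⁆ = ⁅g, c⁆ → b = c := by
    intro b hb c hc h
    have h1 : c⁻¹ * b = 1 := by
      refine hg _ (Q.mul_mem (Q.inv_mem hc) hb) ?_
      have h3 : c * g * c⁻¹ * b = (⁅g, c⁆⁻¹ * ⁅g, b⁆) * (b * g) := by
        simp only [commutatorElement_def]
        group
      have h4 : ⁅g, c⁆⁻¹ * ⁅g, b⁆ = 1 := by rw [h, inv_mul_cancel]
      rw [h4, one_mul] at h3
      calc g * (c⁻¹ * b) = c⁻¹ * (c * g * c⁻¹ * b) := by group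
        _ = c⁻¹ * b * g := by rw [h3, mul_assoc]
    exact (inv_mul_eq_one.1 h1).symm
  have h1 : ⁅g, b⁆ ∈ P := by
    rw [mbemb_mul] at hc
    have h2 : a * ⁅g, b⁆ * a⁻¹ ∈ P :=
      (P.mul_mem_cancel_left (mbemb_comm_mem hP g ha)).1 hc
    have h3 := hP.conj_mem _ h2 a⁻¹
    have h4 : a⁻¹ * (a * ⁅g, b⁆ * a⁻¹) * a⁻¹⁻¹ = ⁅g, b⁆ := by group
    rwa [h4] at h3
  let f : ↥(P ⊓ Q) → ↥(P ⊓ Q) := fun p =>
    ⟨⁅g, (p : G)⁆, mbemb_comm_mem hP g p.2.1, mbemb_comm_mem hQ g p.2.2⟩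
  have hf : Function.Injective f := fun p q h =>
    Subtype.ext (hinj _ p.2.2 _ q.2.2 (congrArg Subtype.val h))
  obtain ⟨p, hp⟩ := Finite.surjective_of_injective hf ⟨⁅g, b⁆, h1, mbemb_comm_mem hQ g hb⟩
  have h5 : (p : G) = b := hinj _ p.2.2 _ hb (congrArg Subtype.val hp)
  exact P.mul_mem ha (h5 ▸ p.2.1)

theorem emb (h : Mx.StmtFac) : StmtEmb := by
  intro G _ _ e A H hM
  have hB : (⨆ i, A i).Normal := (h G (e + 1) A (fun i => (hM.piece i).normal) hM.comm).1
  let T : ℕ → Subgroup G := fun i => if hi : i < e + 1 then A ⟨i, hi⟩ else ⊥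
  have hTA : ∀ (i : ℕ) (hi : i < e + 1), T i = A ⟨i, hi⟩ := fun i hi => dif_pos hi
  have hTn : ∀ i, (T i).Normal := by
    intro i
    by_cases hi : i < e + 1
    · rw [hTA i hi]
      exact (hM.piece _).normal
    · have : T i = ⊥ := dif_neg hi
      rw [this]
      infer_instance
  have hSn := mbemb_normal T hTn
  have hfree : ∀ (i : Fin (e + 1)) (g : G), g ∉ cz (A i) → ∀ b ∈ A i, g * b = b * g → b = 1 := by
    intro i g hg b hb hc
    by_contra h1
    exact hg (mem_cz.2 ((hM.piece i).fpf g b hb h1 hc))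
  have htop : mbemb_S T (e + 1) = ⨆ i, A i := by
    refine le_antisymm ?_ (iSup_le fun i => ?_)
    · have : ∀ k, k ≤ e + 1 → mbemb_S T k ≤ ⨆ i, A i := by
        intro k
        induction k with
        | zero => exact fun _ => bot_le
        | succ k ih =>
          intro hk
          refine sup_le (ih (by omega)) ?_
          rw [hTA k (by omega)]
          exact le_iSup A _
      exact this _ le_rfl
    · have h1 : A i ≤ mbemb_S T (i + 1) := by
        have : T i = A i := hTA i i.2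
        rw [← this]
        exact le_sup_right
      exact h1.trans (mbemb_mono T (by have := i.2; omega))
  refine ⟨mbemb_S T, ⟨rfl, fun i _ => hSn i, fun i _ => le_sup_left, fun i hi g => ?_⟩, htop, ?_⟩
  · by_cases hg : g ∈ cz (A ⟨i, hi⟩)
    · refine Or.inl (mbemb_triv (hSn i) ?_)
      rw [hTA i hi]
      exact mem_cz.1 hg
    · refine Or.inr (mbemb_free (hSn i) (hTn i) ?_)
      rw [hTA i hi]
      exact hfree _ g hg
  · intro g
    by_cases hg : ∃ i, g ∈ cz (A i)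
    · obtain ⟨i, hi⟩ := hg
      obtain ⟨a, ha, z, -, hz, rfl⟩ := hM.cen i g hi
      refine Or.inl fun x => ?_
      have hx : x ∈ (⨆ i, A i) ⊔ H := by
        rw [hM.top]
        exact Subgroup.mem_top x
      obtain ⟨b, hb, y, hy, rfl⟩ := mbemb_split hB hx
      have h1 : ⁅a * z, b * y⁆ = a * (z * b * z⁻¹) * ((z * y) * z⁻¹ * a⁻¹ * y⁻¹) * b⁻¹ := by
        simp only [commutatorElement_def]
        group
      have h2 : (y * z) * z⁻¹ * a⁻¹ * y⁻¹ = y * a⁻¹ * y⁻¹ := by group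
      rw [h1, hz y hy, h2]
      exact mul_mem (mul_mem (mul_mem ha (hB.conj_mem b hb z)) (hB.conj_mem _ (inv_mem ha) y))
        (inv_mem hb)
    · have hg' : ∀ i, g ∉ cz (A i) := fun i hi => hg ⟨i, hi⟩
      refine Or.inr ⟨fun h0 => hg' 0 (mem_cz.2 fun a ha => ?_), fun a ha hc => ?_⟩
      · have h1 : a ∈ (⨆ i, A i) := le_iSup A 0 ha
        rw [h0, Subgroup.mem_bot] at h1
        rw [h1, mul_one, one_mul]
      · have : ∀ k, k ≤ e + 1 → a ∈ mbemb_S T k → a = 1 := by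
          intro k
          induction k with
          | zero => exact fun _ h1 => Subgroup.mem_bot.1 h1
          | succ k ih =>
            intro hk h1
            refine ih (by omega) (mbemb_free (g := g) (hSn k) (hTn k) ?_ a h1 ?_)
            · rw [hTA k (by omega)]
              exact hfree _ g (hg' _)
            · rw [commutatorElement_eq_one_iff_mul_comm.2 hc]
              exact one_mem _
        exact this _ le_rfl (htop ▸ ha)

end Pool.Agent.Work.MP_11a08a_al.Mb
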