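import Pool.Agent.Work.MP_11a08a_al.Mb.Defs

/-!
The Fitting decomposition of a finite ring along a chain of ideals with free factors.
-/

set_option autoImplicit false

namespace Pool.Agent.Work.MP_11a08a_al.Mb

theorem mbfit_idem {R : Type} [CommRing R] [Finite R] (a : Ideal R) :
    ∃ (N : ℕ) (f : R), f * f = f ∧ a ^ (N + 1) = Ideal.span {f} := by
  obtain ⟨b, ⟨N, rfl⟩, hN⟩ := (wellFounded_lt (α := Ideal R)).has_min
    (Set.range fun n : ℕ => a ^ (n + 1)) ⟨_, 0, rfl⟩
  have h1 : a ^ (N + 1) * a ^ (N + 1) = a ^ (N + 1) := by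
    refine (Ideal.mul_le_right (I := a ^ (N + 1))).eq_of_not_lt ?_
    refine hN _ ⟨N + (N + 1), ?_⟩
    change a ^ (N + (N + 1) + 1) = _
    rw [← pow_add, show N + (N + 1) + 1 = N + 1 + (N + 1) by omega]
  obtain ⟨f, hf, h2⟩ := (Ideal.isIdempotentElem_iff_of_fg (a ^ (N + 1))
    (IsNoetherian.noetherian _)).1 h1
  exact ⟨N, f, hf, h2⟩

theorem mbfit_triv {R : Type} [CommRing R] {U : Finset R} {J : ℕ → Ideal R} {i : ℕ}
    (h : ∀ v ∈ U, Triv J i v) : ∀ b ∈ aug U, ∀ z ∈ J i, b * z ∈ J (i + 1) := by
  intro b hb
  induction hb using Submodule.span_induction with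
  | mem x hx =>
    obtain ⟨v, hv, rfl⟩ := hx
    exact h v hv
  | zero =>
    intro z _
    rw [zero_mul]
    exact zero_mem _
  | add x y _ _ hx hy =>
    intro z hz
    rw [add_mul]
    exact add_mem (hx z hz) (hy z hz)
  | smul c x _ hx =>
    intro z hz
    rw [smul_eq_mul, mul_assoc]
    exact Ideal.mul_mem_left _ _ (hx z hz)

theorem mbfit_inj {R : Type} [CommRing R] {J : ℕ → Ideal R} {i : ℕ} {v : R} (h : Inj J i v) :
    ∀ (n : ℕ), ∀ z ∈ J i, (v - 1) ^ n * z ∈ J (i + 1) → z ∈ J (i + 1) := by
  intro n
  induction n with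
  | zero =>
    intro z _ h1
    rwa [pow_zero, one_mul] at h1
  | succ n ih =>
    intro z hz h1
    refine ih z hz (h _ (Ideal.mul_mem_left _ _ hz) ?_)
    rwa [← mul_assoc, ← pow_succ']

theorem fit : StmtFit := by
  intro R _ _ U J e hC
  obtain ⟨N, f, hf, hN⟩ := mbfit_idem (aug U)
  have hfa : f ∈ aug U :=
    Ideal.pow_le_self (Nat.succ_ne_zero N) (hN ▸ Ideal.mem_span_singleton_self f)
  have h1 : ∀ i ≤ e, ∀ y ∈ aug U ^ i, (1 - f) * y ∈ J i := by
    intro i
    induction i with
    | zero =>
      intro _ y _
      rw [hC.top]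
      exact Submodule.mem_top
    | succ i ih =>
      intro hi y hy
      have ih' := ih (by omega)
      by_cases hall : ∀ v ∈ U, Triv J i v
      · rw [pow_succ] at hy
        refine Submodule.mul_induction_on hy (fun x hx b hb => ?_) (fun x z hx hz => ?_)
        · have := mbfit_triv hall b hb _ (ih' x hx)
          convert this using 1
          ring
        · rw [mul_add]
          exact add_mem hx hz
      · push Not at hall
        obtain ⟨v, hv, hnv⟩ := hall
        have hI : Inj J i v := (hC.alt i (by omega) v hv).resolve_left hnv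
        refine mbfit_inj hI (N + 1) _ (ih' y (Ideal.pow_le_pow_right (Nat.le_succ i) hy)) ?_
        have hva : v - 1 ∈ aug U := Ideal.subset_span ⟨v, hv, rfl⟩
        have h2 : (v - 1) ^ (N + 1) ∈ Ideal.span {f} := by
          rw [← hN]
          exact Ideal.pow_mem_pow hva _
        obtain ⟨c, hc⟩ := Ideal.mem_span_singleton'.1 h2
        have h3 : (v - 1) ^ (N + 1) * ((1 - f) * y) = 0 := by
          rw [← hc]
          linear_combination (-(c * y)) * hf
        rw [h3]
        exact zero_mem _
  refine ⟨1 - f, by linear_combination hf, fun y hy => ?_, fun u hu hT => ?_⟩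
  · have := h1 e le_rfl y hy
    rwa [hC.bot, Ideal.mem_bot] at this
  · have h2 : ∀ z, (u - 1) * (f * z) = 0 → f * z = 0 := by
      intro z hz
      have h3 : ∀ i ≤ e, f * z ∈ J i := by
        intro i
        induction i with
        | zero =>
          intro _
          rw [hC.top]
          exact Submodule.mem_top
        | succ i ih =>
          intro hi
          have ih' := ih (by omega)
          rcases hC.alt i (by omega) u hu with h | h
          · have := mbfit_triv (hT i (by omega) h) f hfa _ ih'
            rwa [← mul_assoc, hf] at this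
          · refine h _ ih' ?_
            rw [hz]
            exact zero_mem _
      have := h3 e le_rfl
      rwa [hC.bot, Ideal.mem_bot] at this
    have hinj : Function.Injective fun z : R => ((u - 1) * f + (1 - f)) * z := by
      intro x y hxy
      have h4 : ((u - 1) * f + (1 - f)) * (x - y) = 0 := by
        rw [mul_sub]
        exact sub_eq_zero.2 hxy
      have h5 : f * (x - y) = 0 := h2 _ (by
        linear_combination f * h4 - ((u - 1) * (x - y) - (x - y)) * hf)
      rw [← sub_eq_zero]
      linear_combination h4 - (u - 2) * h5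
    obtain ⟨z, hz⟩ := Finite.injective_iff_surjective.1 hinj 1
    refine ⟨f * z, Ideal.mem_span_singleton'.2 ⟨z, ?_⟩⟩
    simp only at hz
    linear_combination hz

end Pool.Agent.Work.MP_11a08a_al.Mb
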