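import Pool.Agent.Work.MP_11a08a_al.Mb.Defs

/-!
The base of the removal of one class of terms.
-/

set_option autoImplicit false

open Finset

namespace Pool.Agent.Work.MP_11a08a_al.Mb

open Pool.Agent.Work.MP_11a08a_al.Af (Grp)

section

variable {R K : Type} [CommRing R] [Field K]

theorem mbkill1_ne (χ : AddChar R K) (x : R) : χ x ≠ 0 := fun h => by
  have := χ.map_add_eq_mul x (-x)
  rw [add_neg_cancel, χ.map_zero_eq_one, h, zero_mul] at this
  exact one_ne_zero this

theorem mbkill1_mem {U : Finset R} {u : R} (hu : u ∈ U) : u - 1 ∈ aug U :=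
  Ideal.subset_span ⟨u, hu, rfl⟩

theorem mbkill1_val {U : Finset R} {x y : AddChar R K} (h : Rel U 1 y x) {u : R} (hu : u ∈ U) :
    y u = y 1 / x 1 * x u := by
  have h1 : y (u - 1) = x (u - 1) := h _ (by rw [pow_one]; exact mbkill1_mem hu)
  have h2 : y u = y 1 * y (u - 1) := by rw [← y.map_add_eq_mul, add_sub_cancel]
  have h3 : x u = x 1 * x (u - 1) := by rw [← x.map_add_eq_mul, add_sub_cancel]
  have h4 := mbkill1_ne x 1
  rw [h2, h3, h1]
  field_simp

theorem mbkill1_rel {U : Finset R} {x y : AddChar R K} {i : ℕ} {h : R} (hh : h ∈ U)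
    (hr : Rel U (i + 1) y x) : Rel U i (y.mulShift h * x.mulShift (1 - h)) y := by
  intro z hz
  have h1 : (h - 1) * z ∈ aug U ^ (i + 1) := by
    rw [pow_succ']
    exact Ideal.mul_mem_mul (mbkill1_mem hh) hz
  have h2 : h * z = z + (h - 1) * z := by ring
  have h3 : (h - 1) * z + (1 - h) * z = 0 := by ring
  rw [AddChar.mul_apply, AddChar.mulShift_apply, AddChar.mulShift_apply, h2, y.map_add_eq_mul,
    hr _ h1, mul_assoc, ← x.map_add_eq_mul, h3, x.map_zero_eq_one, mul_one]

omit [CommRing R] in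
theorem mbkill1_cnt_mono {U : Finset R} {f g : R → K} (h : ∀ u ∈ U, g u ≠ 0 → f u ≠ 0) :
    cnt U g ≤ cnt U f := by
  classical
  unfold cnt
  refine card_le_card fun u hu => ?_
  rw [mem_filter] at hu ⊢
  exact ⟨hu.1, h u hu.1 hu.2⟩

theorem mbkill1_cnt_two {U : Finset R} (hU : Grp U) {f g : R → K} {h : R} (hh : h ∈ U)
    (hg : ∀ u ∈ U, g u ≠ 0 → f u ≠ 0 ∨ f (h * u) ≠ 0) : cnt U g ≤ 2 * cnt U f := by
  classical
  have h1 : cnt U (fun u => f (h * u)) ≤ cnt U f := by
    unfold cnt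
    refine card_le_card_of_injOn (fun u => h * u) (fun u hu => ?_) fun u _ v _ e => ?_
    · rw [mem_coe, mem_filter] at hu ⊢
      exact ⟨hU.mul h hh u hu.1, hu.2⟩
    · exact (hU.unit hh).mul_left_cancel e
  have h2 : cnt U g ≤ cnt U f + cnt U (fun u => f (h * u)) := by
    unfold cnt
    refine le_trans (card_le_card fun u hu => ?_) (card_union_le _ _)
    rw [mem_filter] at hu
    rw [mem_union, mem_filter, mem_filter]
    exact (hg u hu.1 hu.2).imp (fun a => ⟨hu.1, a⟩) fun a => ⟨hu.1, a⟩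
  omega

end

theorem kill1 : StmtKill1 := by
  classical
  intro s
  refine ⟨2 * (s * s) + s + 2, ?_⟩
  intro R K _ _ U I hU ι _ β lam φ T x hs hφ hT hne
  set b : {t // t ∈ T} → K := fun t => β t * (lam t 1 / x 1) with hb
  set F : R → K := fun u => ∑ t : {t // t ∈ T}, b t * φ t u with hF
  set G : R → K := fun u => ∑ l : {l // ¬ l ∈ T}, β l * lam l u * φ l u with hG
  have c1 : Fintype.card {t // t ∈ T} ≤ s := (Fintype.card_subtype_le _).trans hs
  have c2 : Fintype.card {l // ¬ l ∈ T} ≤ s := (Fintype.card_subtype_le _).trans hs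
  have hf : ∀ u ∈ U, ev β lam φ u = x u * F u + G u := by
    intro u hu
    unfold ev
    rw [← Fintype.sum_subtype_add_sum_subtype (fun l => l ∈ T), hF, hG]
    congr 1
    simp only []
    rw [mul_sum]
    refine sum_congr rfl fun t _ => ?_
    rw [mbkill1_val (hT t t.2) hu, hb]
    ring
  by_cases ha : ∀ u ∈ U, F u = 0
  · right
    have he : ∀ u ∈ U, ev (fun l : {l // ¬ l ∈ T} => β l) (fun l => lam l) (fun l => φ l) u =
        ev β lam φ u := by
      intro u hu
      rw [hf u hu, ha u hu, mul_zero, zero_add]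
      rfl
    refine ⟨{l // ¬ l ∈ T}, inferInstance, fun l => β l, fun l => lam l, fun l => φ l,
      fun l => l.1, by omega, fun l => hφ l, ?_, ?_, fun l => ⟨l.2, fun i _ _ => Rel.refl _ _ _⟩⟩
    · obtain ⟨u, hu, h⟩ := hne
      exact ⟨u, hu, by rw [he u hu]; exact h⟩
    · refine (mbkill1_cnt_mono (f := ev β lam φ) fun u hu h => by rwa [he u hu] at h).trans ?_
      exact Nat.le_mul_of_pos_left _ (by omega)
  by_cases hc : ∀ h ∈ U, ∀ u ∈ U,
      F (h * u) * ev β lam φ u - F u * ev β lam φ (h * u) * x ((1 - h) * u) = 0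
  · left
    push Not at ha
    refine ⟨{t // t ∈ T}, inferInstance, b, fun t => φ t, by omega, fun t => hφ t, ha, ?_⟩
    refine (mbkill1_cnt_mono (f := ev β lam φ) fun v hv h h0 => ?_).trans
      (Nat.le_mul_of_pos_left _ (by omega))
    obtain ⟨u, hu, h1⟩ := hne
    obtain ⟨w, hw, e⟩ := hU.inv u hu
    have h2 := hc (v * w) (hU.mul v hv w hw) u hu
    have h3 : v * w * u = v := by rw [mul_assoc, mul_comm w, e, mul_one]
    rw [h3, h0, mul_zero, zero_mul, sub_zero] at h2
    exact mul_ne_zero h h1 h2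
  right
  push Not at hc
  obtain ⟨h, hh, u₀, hu₀, hg⟩ := hc
  set P := {t // t ∈ T} × {l // ¬ l ∈ T} with hP
  set β' : P ⊕ P → K := Sum.elim (fun p => b p.1 * β p.2) (fun p => -(b p.1 * β p.2)) with hβ'
  set lam' : P ⊕ P → AddChar R K :=
    Sum.elim (fun p => lam p.2) (fun p => (lam p.2).mulShift h * x.mulShift (1 - h)) with hlam'
  set φ' : P ⊕ P → AddChar R K :=
    Sum.elim (fun p => (φ p.1).mulShift h * φ p.2) (fun p => φ p.1 * (φ p.2).mulShift h) with hφ'
  have he : ∀ u ∈ U, ev β' lam' φ' u =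
      F (h * u) * ev β lam φ u - F u * ev β lam φ (h * u) * x ((1 - h) * u) := by
    intro u hu
    have h1 : x (h * u) * x ((1 - h) * u) = x u := by
      rw [← x.map_add_eq_mul]
      congr 1
      ring
    have h2 : F (h * u) * G u = ∑ p : P, b p.1 * β p.2 * lam p.2 u *
        (φ p.1 (h * u) * φ p.2 u) := by
      rw [Fintype.sum_prod_type, hF, hG]
      simp only []
      rw [sum_mul_sum]
      exact sum_congr rfl fun t _ => sum_congr rfl fun l _ => by ring
    have h3 : -(F u * G (h * u) * x ((1 - h) * u)) = ∑ p : P, -(b p.1 * β p.2) *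
        (lam p.2 (h * u) * x ((1 - h) * u)) * (φ p.1 u * φ p.2 (h * u)) := by
      rw [Fintype.sum_prod_type, hF, hG]
      simp only []
      rw [sum_mul_sum, sum_mul, ← sum_neg_distrib]
      refine sum_congr rfl fun t _ => ?_
      rw [sum_mul, ← sum_neg_distrib]
      exact sum_congr rfl fun l _ => by ring
    have h4 : ev β' lam' φ' u = F (h * u) * G u + -(F u * G (h * u) * x ((1 - h) * u)) := by
      rw [h2, h3]
      unfold ev
      rw [Fintype.sum_sum_type]
      simp only [hβ', hlam', hφ', Sum.elim_inl, Sum.elim_inr, AddChar.mul_apply,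
        AddChar.mulShift_apply]
    rw [h4, hf u hu, hf _ (hU.mul h hh u hu), ← h1]
    ring
  refine ⟨P ⊕ P, inferInstance, β', lam', φ', Sum.elim (fun p => p.2.1) (fun p => p.2.1),
    ?_, ?_, ⟨u₀, hu₀, by rw [he u₀ hu₀]; exact hg⟩, ?_, ?_⟩
  · have h1 : Fintype.card P ≤ s * s :=
      (Fintype.card_prod {t // t ∈ T} {l // ¬ l ∈ T}).trans_le (Nat.mul_le_mul c1 c2)
    rw [Fintype.card_sum]
    omega
  · rintro (p | p) y hy
    · simp only [hφ', Sum.elim_inl, AddChar.mul_apply, AddChar.mulShift_apply]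
      rw [hφ _ _ (I.mul_mem_left h hy), hφ _ _ hy, mul_one]
    · simp only [hφ', Sum.elim_inr, AddChar.mul_apply, AddChar.mulShift_apply]
      rw [hφ _ _ (I.mul_mem_left h hy), hφ _ _ hy, mul_one]
  · refine (mbkill1_cnt_two hU (f := ev β lam φ) hh fun u hu h0 => ?_).trans
      (Nat.mul_le_mul_right _ (by omega))
    by_contra h1
    push Not at h1
    rw [he u hu, h1.1, h1.2] at h0
    exact h0 (by ring)
  · rintro (p | p)
    · exact ⟨p.2.2, fun i _ _ => Rel.refl _ _ _⟩
    · exact ⟨p.2.2, fun i _ hr => mbkill1_rel hh hr⟩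

end Pool.Agent.Work.MP_11a08a_al.Mb
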