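import Pool.Agent.Work.MP_11a08a_al.Mb.Defs

/-!
A character with small stabiliser.
-/

set_option autoImplicit false

open scoped commutatorElement

namespace Pool.Agent.Work.MP_11a08a_al.Mb

open Pool.Agent.Work.MP_11a08a_al.Fr (cz cj)

theorem mbmax_cen {G M : Type} [Group G] [Monoid M] (τ : G →* M) (S : Set G) :
    ∃ C : Subgroup G, ∀ y, y ∈ C ↔ ∀ s ∈ S, τ y * τ s = τ s * τ y := by
  refine ⟨{ carrier := {y | ∀ s ∈ S, τ y * τ s = τ s * τ y}
            mul_mem' := ?_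
            one_mem' := ?_
            inv_mem' := ?_ }, fun y => Iff.rfl⟩
  · intro a b ha hb s hs
    rw [map_mul, mul_assoc, hb s hs, ← mul_assoc, ha s hs, mul_assoc]
  · intro s _
    rw [map_one, one_mul, mul_one]
  · intro y hy s hs
    have h1 : τ y * τ y⁻¹ = 1 := by rw [← map_mul, mul_inv_cancel, map_one]
    have h2 : τ y⁻¹ * τ y = 1 := by rw [← map_mul, inv_mul_cancel, map_one]
    calc τ y⁻¹ * τ s = τ y⁻¹ * (τ s * τ y) * τ y⁻¹ := by
          rw [mul_assoc, mul_assoc, h1, mul_one]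
      _ = τ s * τ y⁻¹ := by rw [← hy s hs, ← mul_assoc, h2, one_mul]

theorem mbmax_D {G : Type} [Group G] (A : Subgroup G) (hA : A.Normal) :
    ∃ D : Subgroup G, ∀ g, g ∈ D ↔ ∀ x, ⁅g, x⁆ ∈ A := by
  refine ⟨{ carrier := {g | ∀ x, ⁅g, x⁆ ∈ A}
            mul_mem' := ?_
            one_mem' := ?_
            inv_mem' := ?_ }, fun y => Iff.rfl⟩
  · intro a b ha hb x
    have e : ⁅a * b, x⁆ = a * ⁅b, x⁆ * a⁻¹ * ⁅a, x⁆ := by
      simp only [commutatorElement_def]; group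
    rw [e]
    exact A.mul_mem (hA.conj_mem _ (hb x) a) (ha x)
  · intro x
    rw [commutatorElement_one_left]
    exact A.one_mem
  · intro a ha x
    have e : ⁅a⁻¹, x⁆ = a⁻¹ * ⁅a, x⁆⁻¹ * a := by
      simp only [commutatorElement_def]; group
    rw [e]
    exact hA.conj_mem' _ (A.inv_mem (ha x)) a

theorem mbmax_sup {G M : Type} [Group G] [Monoid M] (τ : G →* M) (B : Subgroup G) (g : G)
    (hB : ∀ a ∈ B, ∀ b ∈ B, τ a * τ b = τ b * τ a) (hg : ∀ b ∈ B, τ g * τ b = τ b * τ g) :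
    ∀ a ∈ B ⊔ Subgroup.zpowers g, ∀ b ∈ B ⊔ Subgroup.zpowers g, τ a * τ b = τ b * τ a := by
  intro a ha b hb
  obtain ⟨C, hC⟩ := mbmax_cen τ (insert g (B : Set G))
  have h1 : B ⊔ Subgroup.zpowers g ≤ C := by
    refine sup_le (fun y hy => (hC y).2 ?_) (Subgroup.zpowers_le.2 ((hC g).2 ?_))
    · rintro s (rfl | hs)
      · exact (hg y hy).symm
      · exact hB y hy s hs
    · rintro s (rfl | hs)
      · rfl
      · exact hg s hs
  have h2 := (hC a).1 (h1 ha)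
  obtain ⟨C', hC'⟩ := mbmax_cen τ {a}
  have h3 : B ⊔ Subgroup.zpowers g ≤ C' := by
    refine sup_le (fun y hy => (hC' y).2 ?_) (Subgroup.zpowers_le.2 ((hC' g).2 ?_))
    · rintro s rfl
      exact (h2 y (Or.inr hy)).symm
    · rintro s rfl
      exact (h2 g (Or.inl rfl)).symm
  exact ((hC' b).1 (h3 hb) a rfl).symm

theorem max_ex (h : Af.StmtCE) : StmtMax := by
  intro L G V _ _ _ _ _ _ _ _ σ A hA hab hirr
  obtain ⟨D, hD⟩ := mbmax_D A hA
  let S : Set (Subgroup G) := {B | A ≤ B ∧ B ≤ D ∧ ∀ a ∈ B, ∀ b ∈ B, σ a * σ b = σ b * σ a}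
  have hAS : A ∈ S := by
    refine ⟨le_rfl, fun a ha => (hD a).2 fun x => ?_, fun a ha b hb => ?_⟩
    · have e : ⁅a, x⁆ = a * (x * a⁻¹ * x⁻¹) := by simp only [commutatorElement_def]; group
      rw [e]
      exact A.mul_mem ha (hA.conj_mem _ (A.inv_mem ha) x)
    · rw [← map_mul, ← map_mul, hab a ha b hb]
  obtain ⟨B, ⟨hAB, hBD, hBc⟩, hmax⟩ := (Set.toFinite S).exists_maximal ⟨A, hAS⟩
  have hB : B.Normal := ⟨fun b hb x => by
    have e : x * b * x⁻¹ = ⁅b, x⁆⁻¹ * b := by simp only [commutatorElement_def]; group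
    rw [e]
    exact B.mul_mem (B.inv_mem (hAB ((hD b).1 (hBD hb) x))) hb⟩
  obtain ⟨v, -, hv0, hv⟩ := h L V B (fun b => σ b) ⊤ top_ne_bot (fun _ _ _ => trivial)
    (fun a b w _ => by
      have := LinearMap.congr_fun (hBc a a.2 b b.2) w
      simpa only [Module.End.mul_apply] using this)
  choose ω hω using hv
  have hinj : ∀ c d : L, c • v = d • v → c = d := fun c d e => smul_left_injective L hv0 e
  let χ : B →* L :=
    { toFun := ω
      map_one' := hinj _ _ (by rw [← hω 1, one_smul]; simp)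
      map_mul' := fun a b => hinj _ _ (by
        rw [← hω (a * b), Subgroup.coe_mul, map_mul, Module.End.mul_apply, hω b, map_smul, hω a,
          smul_smul, mul_comm]) }
  refine ⟨B, hB, χ, v, hAB, fun g hg => (hD g).1 (hBD hg), hv0, hω, fun g hg hχ => ?_⟩
  let W : Submodule L V := ⨅ b : B, LinearMap.eqLocus (σ (g⁻¹ * b * g)) (σ b)
  have hW : ∀ w, w ∈ W ↔ ∀ b ∈ B, σ (g⁻¹ * b * g) w = σ b w := fun w => by
    simp only [W, Submodule.mem_iInf, LinearMap.mem_eqLocus, Subtype.forall]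
  have hvW : v ∈ W := (hW v).2 fun b hb => by
    have e1 := hω (cj hB g ⟨b, hb⟩)
    have e2 := hω ⟨b, hb⟩
    have e3 : ω (cj hB g ⟨b, hb⟩) = ω ⟨b, hb⟩ := hχ ⟨b, hb⟩
    rw [e3] at e1
    exact e1.trans e2.symm
  have hinv : ∀ x, ∀ w ∈ W, σ x w ∈ W := fun x w hw => (hW _).2 fun b hb => by
    have hc : ⁅g, x⁻¹⁆ ∈ B := hAB (hg x⁻¹)
    have hb2 : x⁻¹ * b * x ∈ B := hB.conj_mem' b hb x
    have e1 : g⁻¹ * b * g * x = x * (g⁻¹ * (⁅g, x⁻¹⁆ * (x⁻¹ * b * x) * ⁅g, x⁻¹⁆⁻¹) * g) := by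
      simp only [commutatorElement_def]; group
    have e2 : σ (⁅g, x⁻¹⁆ * (x⁻¹ * b * x) * ⁅g, x⁻¹⁆⁻¹) = σ (x⁻¹ * b * x) := by
      rw [map_mul, map_mul σ ⁅g, x⁻¹⁆, hBc _ hc _ hb2, mul_assoc, ← map_mul, mul_inv_cancel,
        map_one, mul_one]
    have e3 : b * x = x * (x⁻¹ * b * x) := by group
    have e4 := (hW w).1 hw _ (B.mul_mem (B.mul_mem hc hb2) (B.inv_mem hc))
    rw [← Module.End.mul_apply, ← map_mul, e1, map_mul, Module.End.mul_apply, e4, e2,
      ← Module.End.mul_apply, ← map_mul, ← e3, map_mul, Module.End.mul_apply]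
  have htop : W = ⊤ := (hirr W hinv).resolve_left fun e => hv0 (by
    rw [e] at hvW; exact (Submodule.mem_bot L).1 hvW)
  have hgc : ∀ b ∈ B, σ g * σ b = σ b * σ g := fun b hb => by
    have e : σ (g⁻¹ * b * g) = σ b :=
      LinearMap.ext fun w => (hW w).1 (htop ▸ Submodule.mem_top) b hb
    have e' : b * g = g * (g⁻¹ * b * g) := by group
    rw [← map_mul σ b g, e', map_mul, e]
  have hS : B ⊔ Subgroup.zpowers g ∈ S :=
    ⟨hAB.trans le_sup_left, sup_le hBD (Subgroup.zpowers_le.2 ((hD g).2 hg)),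
      mbmax_sup σ B g hBc hgc⟩
  exact hmax hS le_sup_left (Subgroup.mem_sup_right (Subgroup.mem_zpowers g))

end Pool.Agent.Work.MP_11a08a_al.Mb
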