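import Pool.Agent.Work.MP_11a08a_al.Mb.Defs

/-!
The number theoretic theorem for chains, by induction on the number of nontrivial factors.
-/

set_option autoImplicit false

open Finset

namespace Pool.Agent.Work.MP_11a08a_al.Mb

open Pool.Agent.Work.MP_11a08a_al.Af (Grp)

open Classical in
theorem mbnt_grp {R : Type} [CommRing R] {U : Finset R} (hU : Grp U) (J : ℕ → Ideal R) (i : ℕ) :
    Grp (U.filter fun u => Triv J i u) := by
  refine ⟨mem_filter.2 ⟨hU.one, fun y _ => by
    rw [sub_self, zero_mul]; exact (J (i + 1)).zero_mem⟩, ?_, ?_⟩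
  · intro u hu v hv
    obtain ⟨u1, u2⟩ := mem_filter.1 hu
    obtain ⟨v1, v2⟩ := mem_filter.1 hv
    refine mem_filter.2 ⟨hU.mul u u1 v v1, fun y hy => ?_⟩
    have e : (u * v - 1) * y = u * ((v - 1) * y) + (u - 1) * y := by ring
    rw [e]
    exact (J (i + 1)).add_mem ((J (i + 1)).mul_mem_left _ (v2 y hy)) (u2 y hy)
  · intro u hu
    obtain ⟨u1, u2⟩ := mem_filter.1 hu
    obtain ⟨v, v1, e⟩ := hU.inv u u1
    refine ⟨v, mem_filter.2 ⟨v1, fun y hy => ?_⟩, e⟩
    have e2 : (v - 1) * y = (-v) * ((u - 1) * y) := by linear_combination y * e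
    rw [e2]
    exact (J (i + 1)).mul_mem_left _ (u2 y hy)

open Classical in
theorem mbnt_ind (h : StmtSmall) (q e d : ℕ) : ∀ ε : ℝ, 0 < ε → ∃ c : ℝ, 0 < c ∧
    ∀ (R K : Type) [CommRing R] [Fintype R] [Field K] (U : Finset R) (J : ℕ → Ideal R), Grp U →
      Chain U J e → #((range e).filter fun i => ∃ v ∈ U, ¬ Triv J i v) ≤ d →
      ∀ (β : Fin q → K) (ψ : Fin q → AddChar R K), (∃ u ∈ U, ∑ l, β l * ψ l u ≠ 0) →
        c * #U ≤ (Fintype.card R : ℝ) ^ ε * cnt U fun u => ∑ l, β l * ψ l u := by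
  induction d with
  | zero =>
    intro ε hε
    obtain ⟨c, c0, H⟩ := h ε ε hε hε q e
    refine ⟨c, c0, ?_⟩
    intro R K _ _ _ U J hU hJ hd β ψ hu
    refine H R K U J hU hJ (fun i hi hv => ?_) β ψ hu
    have : 0 < #((range e).filter fun i => ∃ v ∈ U, ¬ Triv J i v) :=
      card_pos.2 ⟨i, mem_filter.2 ⟨mem_range.2 hi, hv⟩⟩
    omega
  | succ d ih =>
    intro ε hε
    obtain ⟨c₁, c1, H₁⟩ := ih (ε / 2) (half_pos hε)
    obtain ⟨c₂, c2, H₂⟩ := h (ε / 2) ε (half_pos hε) hε q e
    refine ⟨min c₁ c₂, lt_min c1 c2, ?_⟩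
    intro R K _ _ _ U J hU hJ hd β ψ hu
    have N0 : (0 : ℝ) < Fintype.card R := by exact_mod_cast Fintype.card_pos
    by_cases hc : ∀ i < e, (∃ v ∈ U, ¬ Triv J i v) →
        (Fintype.card R : ℝ) ^ (ε / 2) * #(U.filter fun u => Triv J i u) ≤ #U
    · exact (mul_le_mul_of_nonneg_right (min_le_right _ _) (Nat.cast_nonneg _)).trans
        (H₂ R K U J hU hJ hc β ψ hu)
    · obtain ⟨i, hi⟩ := not_forall.1 hc
      obtain ⟨hie, hi⟩ := Classical.not_imp.1 hi
      obtain ⟨hv, hi⟩ := Classical.not_imp.1 hi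
      have hi' := (not_le.1 hi).le
      obtain ⟨u, u1, u2⟩ := hu
      have hC := mbnt_grp hU J i
      have hJ' : Chain (U.filter fun u => Triv J i u) J e :=
        ⟨hJ.top, hJ.bot, fun j hj v hv => hJ.alt j hj v (mem_filter.1 hv).1⟩
      have hd' : #((range e).filter fun j => ∃ v ∈ U.filter (fun u => Triv J i u),
          ¬ Triv J j v) ≤ d := by
        have hs : ((range e).filter fun j => ∃ v ∈ U.filter (fun u => Triv J i u), ¬ Triv J j v) ⊆
            ((range e).filter fun j => ∃ v ∈ U, ¬ Triv J j v).erase i := by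
          intro j hj
          obtain ⟨j1, v, v1, v2⟩ := mem_filter.1 hj
          obtain ⟨v3, v4⟩ := mem_filter.1 v1
          refine mem_erase.2 ⟨?_, mem_filter.2 ⟨j1, v, v3, v2⟩⟩
          rintro rfl
          exact v2 v4
        have h1 := card_le_card hs
        rw [card_erase_of_mem (mem_filter.2 ⟨mem_range.2 hie, hv⟩)] at h1
        omega
      have key := H₁ R K (U.filter fun u => Triv J i u) J hC hJ' hd' β
        (fun l => (ψ l).mulShift u) ⟨1, hC.one, by
          simpa only [AddChar.mulShift_apply, mul_one] using u2⟩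
      have P0 : (0 : ℝ) ≤ (Fintype.card R : ℝ) ^ (ε / 2) := Real.rpow_nonneg N0.le _
      have sq : (Fintype.card R : ℝ) ^ ε =
          (Fintype.card R : ℝ) ^ (ε / 2) * (Fintype.card R : ℝ) ^ (ε / 2) := by
        rw [← Real.rpow_add N0, add_halves]
      refine (mul_le_mul_of_nonneg_right (min_le_left _ _) (Nat.cast_nonneg _)).trans
        ((mul_le_mul_of_nonneg_left hi' c1.le).trans ?_)
      rw [sq, mul_left_comm, mul_assoc]
      refine mul_le_mul_of_nonneg_left (key.trans (mul_le_mul_of_nonneg_left ?_ P0)) P0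
      unfold cnt
      refine Nat.cast_le.2 (card_le_card_of_injOn (fun k => u * k) ?_ ?_)
      · intro k hk
        obtain ⟨k1, k2⟩ := mem_filter.1 (mem_coe.1 hk)
        obtain ⟨k3, -⟩ := mem_filter.1 k1
        refine mem_coe.2 (mem_filter.2 ⟨hU.mul u u1 k k3, ?_⟩)
        simpa only [AddChar.mulShift_apply] using k2
      · intro k _ k' _ e
        exact (hU.unit u1).mul_left_cancel e

theorem nt (h : StmtSmall) : StmtNT := by
  intro q e ε hε
  obtain ⟨c, c0, H⟩ := mbnt_ind h q e e ε hε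
  refine ⟨c, c0, ?_⟩
  intro R K _ _ _ U J hU hJ β ψ hu
  classical
  exact H R K U J hU hJ ((card_filter_le _ _).trans (card_range e).le) β ψ hu

end Pool.Agent.Work.MP_11a08a_al.Mb
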