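import Pool.Agent.Work.MP_11a08a_al.Mb.Defs

/-!
Removal of the unipotent part.
-/

set_option autoImplicit false

open Finset

namespace Pool.Agent.Work.MP_11a08a_al.Mb

theorem pet (h1 : StmtKill1) (h2 : StmtKillS) : StmtPet := by
  have h : ∀ e, Kill (e + 1) := fun e => by
    induction e with
    | zero => exact h1
    | succ e ih => exact h2 _ ih
  intro e s
  obtain ⟨n, hn⟩ := h e s
  refine ⟨n, fun R K _ _ U I hU β lam φ hφ hl hne => ?_⟩
  obtain h3 | ⟨ι, _, β', lam', φ', π, -, -, ⟨u, -, hu⟩, -, h4⟩ := hn R K U I hU (Fin s) β lam φ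
    Set.univ 1 (Fintype.card_fin s).le hφ
    (fun l _ z hz => hl l z (Ideal.pow_le_pow_right (Nat.le_succ e) hz)) hne
  · exact h3
  · exact absurd (sum_eq_zero fun l _ => absurd (Set.mem_univ _) (h4 l).1) hu

end Pool.Agent.Work.MP_11a08a_al.Mb
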