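import Pool.Agent.Work.MP_11a08a_al.Mb.Defs
import Pool.Agent.Work.MP_11a08a_al.Af.Quo

/-!
The case of an almost free action on a quotient.
-/

set_option autoImplicit false

open Finset

namespace Pool.Agent.Work.MP_11a08a_al.Mb

open Pool.Agent.Work.MP_11a08a_al.Af (Grp AF afquo_fib afquo_lift)

theorem mbquo_pad {R K ι : Type} [CommRing R] [Field K] [Fintype ι] {q : ℕ} (I : Ideal R)
    (β : ι → K) (φ : ι → AddChar R K) (hq : Fintype.card ι ≤ q) (hφ : ∀ l, ∀ y ∈ I, φ l y = 1) :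
    ∃ (β' : Fin q → K) (φ' : Fin q → AddChar R K), (∀ l, ∀ y ∈ I, φ' l y = 1) ∧
      ∀ u, ∑ l, β l * φ l u = ∑ l, β' l * φ' l u := by
  classical
  obtain ⟨e⟩ := Function.Embedding.nonempty_of_card_le (α := ι) (β := Fin q) (by simpa using hq)
  refine ⟨Function.extend e β 0, Function.extend e φ fun _ => 1, fun l y hy => ?_, fun u => ?_⟩
  · by_cases h : ∃ a, e a = l
    · obtain ⟨a, rfl⟩ := h
      rw [e.injective.extend_apply]
      exact hφ a y hy
    · rw [Function.extend_apply' _ _ _ h]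
      rfl
  · rw [← sum_subset (subset_univ (univ.map e)) fun l _ hl => ?_, sum_map]
    · exact sum_congr rfl fun a _ => by rw [e.injective.extend_apply, e.injective.extend_apply]
    · rw [Function.extend_apply' _ _ _ fun ⟨a, ha⟩ => hl (mem_map.2 ⟨a, mem_univ _, ha⟩)]
      exact zero_mul _

theorem quo (h : Af.StmtNT) : StmtQuo := by
  intro η ε hη hε q d
  obtain ⟨c₁, hc₁, H⟩ := h (η / 2) ε (half_pos hη) hε q
  have hd : (0 : ℝ) < d + 1 := by positivity
  have hB : (0 : ℝ) < (d + 1 : ℝ) ^ (2 / η) := Real.rpow_pos_of_pos hd _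
  refine ⟨min (min c₁ 1) (1 / (d + 1 : ℝ) ^ (2 / η)),
    lt_min (lt_min hc₁ one_pos) (by positivity), ?_⟩
  intro R K _ _ _ U I hU hK ι _ β₀ ψ₀ hq hψ₀ hex
  classical
  obtain ⟨β, ψ, hψ, he⟩ := mbquo_pad I β₀ ψ₀ hq hψ₀
  simp only [he] at hex ⊢
  obtain ⟨u₀, hu₀, hne⟩ := hex
  unfold cnt
  have hN1 : (1 : ℝ) ≤ Fintype.card R := by exact_mod_cast Fintype.card_pos
  have hN0 : (0 : ℝ) < Fintype.card R := by linarith
  by_cases hI : I = ⊤
  · have h1 : ∀ l y, ψ l y = 1 := fun l y => hψ l y (hI ▸ Submodule.mem_top)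
    simp only [h1] at hne ⊢
    rw [filter_true_of_mem fun _ _ => hne]
    exact mul_le_mul_of_nonneg_right (((min_le_left _ _).trans (min_le_right _ _)).trans
      (Real.one_le_rpow hN1 hε.le)) (Nat.cast_nonneg _)
  by_cases hN : (Fintype.card R : ℝ) ^ (η / 2) < d + 1
  · have h1 : (Fintype.card R : ℝ) ≤ (d + 1 : ℝ) ^ (2 / η) := by
      have h2 := Real.rpow_le_rpow (by positivity) hN.le (show 0 ≤ 2 / η by positivity)
      rwa [← Real.rpow_mul hN0.le, show η / 2 * (2 / η) = 1 by field_simp, Real.rpow_one] at h2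
    have h2 : (#U : ℝ) ≤ Fintype.card R := by exact_mod_cast card_le_univ U
    have h3 : min (min c₁ 1) (1 / (d + 1 : ℝ) ^ (2 / η)) * #U ≤ 1 := by
      refine (mul_le_mul (min_le_right _ _) (h2.trans h1) (Nat.cast_nonneg _)
        (by positivity)).trans ?_
      rw [one_div, inv_mul_cancel₀ hB.ne']
    refine h3.trans (one_le_mul_of_one_le_of_one_le (Real.one_le_rpow hN1 hε.le) ?_)
    exact_mod_cast card_pos.2 ⟨u₀, mem_filter.2 ⟨hu₀, hne⟩⟩
  push Not at hN
  have : Finite (R ⧸ I) := Finite.of_surjective _ Ideal.Quotient.mk_surjective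
  let _ : Fintype (R ⧸ I) := Fintype.ofFinite _
  have hcard : (Fintype.card (R ⧸ I) : ℝ) ≤ Fintype.card R := by
    exact_mod_cast Fintype.card_le_of_surjective _ Ideal.Quotient.mk_surjective
  set f := Ideal.Quotient.mk I with hf
  obtain ⟨φ, hφ⟩ : ∃ φ : ℕ, φ = #(U.filter fun u => f u = 1) := ⟨_, rfl⟩
  have hφ0 : (0 : ℝ) < φ := by
    rw [hφ]
    exact_mod_cast card_pos.2 ⟨1, mem_filter.2 ⟨hU.one, map_one f⟩⟩
  have fib : ∀ (q : R → Prop) {_ : DecidablePred q} (p : (R ⧸ I) → Prop) {_ : DecidablePred p},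
      (∀ u, q u ↔ p (f u)) → (#(U.filter q) : ℝ) = φ * #((U.image f).filter p) :=
    fun q _ p _ hq => by
      rw [afquo_fib f hU q p hq, hφ]
      push_cast
      congr
  have hall : (#U : ℝ) = φ * #(U.image f) := by
    have := @fib (fun _ => True) (fun _ => inferInstance) (fun _ => True) (fun _ => inferInstance)
      fun _ => Iff.rfl
    rwa [filter_true, filter_true] at this
  have hη0 : (0 : ℝ) < (Fintype.card R : ℝ) ^ η := Real.rpow_pos_of_pos hN0 _
  have hsub : ∀ (q : R → Prop) [DecidablePred q], (∀ u y, q u → 1 - (u - 1) * y ∉ I) →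
      (Fintype.card R : ℝ) ^ η * #(U.filter q) ≤ (d + 1) * #U := fun q _ hq => by
    refine (mul_le_mul_of_nonneg_left (Nat.cast_le.2 (card_le_card fun u hu => ?_))
      hη0.le).trans hK
    obtain ⟨h2, h3⟩ := mem_filter.1 hu
    exact mem_filter.2 ⟨h2, fun ⟨y, hy⟩ => hq u y h3 hy⟩
  have hAF : AF (U.image f) ((Fintype.card R : ℝ) ^ η / (d + 1)) := by
    refine ⟨⟨mem_image.2 ⟨1, hU.one, map_one f⟩, fun x hx y hy => ?_, fun x hx => ?_⟩, ?_, ?_⟩
    · obtain ⟨u, hu, rfl⟩ := mem_image.1 hx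
      obtain ⟨v, hv, rfl⟩ := mem_image.1 hy
      exact mem_image.2 ⟨u * v, hU.mul _ hu _ hv, map_mul f u v⟩
    · obtain ⟨u, hu, rfl⟩ := mem_image.1 hx
      obtain ⟨v, hv, e⟩ := hU.inv u hu
      exact ⟨f v, mem_image_of_mem f hv, by rw [← map_mul, e, map_one]⟩
    · have h2 := hsub (fun u => f u = 1) fun u y h3 hy => hI (by
        have h4 : u - 1 ∈ I := Ideal.Quotient.eq.1 (h3.trans (map_one f).symm)
        rw [Ideal.eq_top_iff_one, ← sub_add_cancel 1 ((u - 1) * y)]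
        exact I.add_mem hy (I.mul_mem_right _ h4))
      rw [← hφ, hall] at h2
      rw [div_le_iff₀ hd]
      refine le_of_mul_le_mul_left ?_ hφ0
      linarith
    · refine le_of_mul_le_mul_left ?_ hφ0
      rw [← hall, mul_left_comm,
        ← @fib (fun u => ¬ IsUnit (f u - 1)) (fun _ => inferInstance) _ _ fun _ => Iff.rfl,
        div_mul_eq_mul_div, div_le_iff₀ hd, mul_comm (#U : ℝ)]
      refine hsub _ fun u y h3 hy => h3 (IsUnit.of_mul_eq_one (f y) ?_)
      rw [← map_one f, ← map_sub, ← map_mul, eq_comm]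
      exact Ideal.Quotient.eq.2 hy
  have hmono : (Fintype.card (R ⧸ I) : ℝ) ^ (η / 2) ≤ (Fintype.card R : ℝ) ^ η / (d + 1) := by
    refine (Real.rpow_le_rpow (Nat.cast_nonneg _) hcard (half_pos hη).le).trans ?_
    rw [le_div_iff₀ hd]
    refine (mul_le_mul_of_nonneg_left hN (by positivity)).trans_eq ?_
    rw [← Real.rpow_add hN0, add_halves]
  choose ψ' hψ' using fun l => afquo_lift I (ψ l) (hψ l)
  have h1 := H (R ⧸ I) K (U.image f) (hAF.mono hmono) ψ' β
    ⟨f u₀, mem_image_of_mem f hu₀, by simpa only [hf, hψ'] using hne⟩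
  have h2 := mul_le_mul_of_nonneg_left h1 hφ0.le
  rw [mul_left_comm, ← hall, mul_left_comm,
    ← @fib (fun u => ∑ l, β l * ψ l u ≠ 0) (fun _ => inferInstance) _ _
      fun u => by simp only [hf, hψ']] at h2
  refine ((mul_le_mul_of_nonneg_right ((min_le_left _ _).trans (min_le_left _ _))
    (Nat.cast_nonneg _)).trans h2).trans ?_
  exact mul_le_mul_of_nonneg_right (Real.rpow_le_rpow (Nat.cast_nonneg _) hcard hε.le)
    (Nat.cast_nonneg _)

end Pool.Agent.Work.MP_11a08a_al.Mb
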