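import Pool.Agent.Work.MP_11a08a_al.Mb.Defs

/-!
A subgroup of small index that is abelian modulo the top of the series.
-/

set_option autoImplicit false

open scoped commutatorElement

namespace Pool.Agent.Work.MP_11a08a_al.Mb

open Pool.Agent.Work.MP_11a08a_al.Fr (cz cj mem_cz)

theorem mbred_mono {G : Type} [Group G] {A : ℕ → Subgroup G} {e : ℕ} (h : Ser A e) (i j : ℕ)
    (hij : i ≤ j) (hj : j ≤ e) : A i ≤ A j := by
  induction j, hij using Nat.le_induction with
  | base => exact le_rfl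
  | succ j _ ih => exact (ih (by omega)).trans (h.le j (by omega))

theorem mbred_comm {G : Type} [Group G] (A : Subgroup G) [A.Normal] (x y : G) :
    ⁅x, y⁆ ∈ A ↔ Commute (QuotientGroup.mk' A x) (QuotientGroup.mk' A y) := by
  rw [← commutatorElement_eq_one_iff_commute, ← map_commutatorElement, QuotientGroup.mk'_apply,
    QuotientGroup.eq_one_iff]

theorem red (h1 : Mx.StmtAb) (h2 : Mx.StmtCyc) : StmtRed := by
  classical
  intro G _ _ A e H hS hc hO hH
  by_cases hall : ∀ g x : G, ⁅g, x⁆ ∈ A e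
  · refine ⟨⊤, 1, fun x _ y _ => hall x y, ?_, ?_⟩
    · rw [Subgroup.index_top, one_mul]
      exact Nat.pos_of_ne_zero Subgroup.index_ne_zero_of_finite
    · have : 0 < Nat.card G := Nat.card_pos
      omega
  obtain ⟨g₁, hg₁⟩ := not_forall.mp hall
  have hne : A e ≠ ⊥ := ((hO g₁).resolve_left hg₁).1
  have hex : ∃ i, A i ≠ ⊥ := ⟨e, hne⟩
  have hpos : Nat.find hex ≠ 0 := fun h0 => Nat.find_spec hex (by rw [h0]; exact hS.bot)
  obtain ⟨i, hi⟩ := Nat.exists_eq_succ_of_ne_zero hpos
  have hie : i + 1 ≤ e := by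
    have := Nat.find_min' hex hne
    omega
  have hbot : A i = ⊥ := by
    have := Nat.find_min hex (m := i) (by omega)
    exact not_not.mp this
  have hP : A (i + 1) ≠ ⊥ := by
    have := Nat.find_spec hex
    rwa [hi] at this
  have hle : A (i + 1) ≤ A e := mbred_mono hS _ _ hie le_rfl
  have hpiece : Mx.Piece (A (i + 1)) := by
    refine ⟨hS.normal _ hie, fun a ha b hb => hc a (hle ha) b (hle hb), ?_⟩
    intro g a ha ha1 hga b hb
    rcases hS.alt i (by omega) g with h | h
    · have := h b hb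
      rw [hbot, Subgroup.mem_bot, commutatorElement_eq_one_iff_mul_comm] at this
      exact this
    · have := h a ha (by
        rw [hbot, Subgroup.mem_bot, commutatorElement_eq_one_iff_mul_comm]
        exact hga)
      rw [hbot, Subgroup.mem_bot] at this
      exact absurd this ha1
  have hcz : cz (A e) ≤ cz (A (i + 1)) := fun g hg =>
    mem_cz.2 fun a ha => mem_cz.1 hg a (hle ha)
  obtain ⟨N, m, hN, hidx, hm⟩ := h1 G (A (i + 1)) H hpiece fun x hx y hy => hcz (hH x hx y hy)
  obtain ⟨g₀, _, hg₀⟩ := h2 G (A (i + 1)) N hpiece hN.2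
  have hnorm : (A e).Normal := hS.normal e le_rfl
  obtain ⟨⟨a, ha⟩, ha1⟩ := (Subgroup.ne_bot_iff_exists_ne_one).mp hP
  have ha1' : a ≠ 1 := fun h => ha1 (Subtype.ext h)
  have hcen : ∀ c ∈ cz (A (i + 1)), ∀ x : G,
      Commute (QuotientGroup.mk' (A e) c) (QuotientGroup.mk' (A e) x) := by
    intro c hc' x
    rcases hO c with h | h
    · exact (mbred_comm (A e) c x).1 (h x)
    · exact absurd (h.2 a (hle ha) (mem_cz.1 hc' a ha)) ha1'
  refine ⟨N, m, fun x hx y hy => ?_, hidx, hm⟩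
  obtain ⟨k, hk⟩ := hg₀ x hx
  obtain ⟨l, hl⟩ := hg₀ y hy
  rw [mbred_comm]
  have ex : x = g₀ ^ k * ((g₀ ^ k)⁻¹ * x) := by group
  have ey : y = g₀ ^ l * ((g₀ ^ l)⁻¹ * y) := by group
  rw [ex, map_mul]
  refine Commute.mul_left ?_ (hcen _ hk y)
  rw [ey, map_mul]
  refine Commute.mul_right ?_ (hcen _ hl _).symm
  exact (Commute.pow_pow_self g₀ k l).map _

end Pool.Agent.Work.MP_11a08a_al.Mb
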