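import Pool.Agent.Work.MP_11a08a_al.Mb.Defs
import Pool.Agent.Work.MP_11a08a_al.Mx.Rep

/-!
The rank bound over algebraically closed fields.
-/

set_option autoImplicit false

open Finset
open scoped commutatorElement

namespace Pool.Agent.Work.MP_11a08a_al.Mb

theorem rep (h2 : StmtRed) (h3 : StmtEig) (h4 : Mx.StmtStruct) (h5 : StmtCount)
    (h6 : Cp.StmtMono) : StmtRep := by
  intro δ hδ q d e
  have hε : 0 < δ / 2 := half_pos hδ
  obtain ⟨c0, hc0, hC⟩ := h5 (δ / 2) hε q e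
  have l2 : 0 < Real.log 2 := Real.log_pos one_lt_two
  obtain ⟨c1, e1⟩ : ∃ c1 : ℝ, c1 = (1 + 1 / (δ / 2 * Real.log 2)) * d := ⟨_, rfl⟩
  have hc1 : 0 ≤ c1 := by rw [e1]; positivity
  refine ⟨1 + c1 * (1 + (2 * q + 1) / c0), by positivity, ?_⟩
  intro L G V _ _ _ _ _ _ _ σ A H hA hab hO hH hcm hirr h β hM
  obtain ⟨N, m, a3, a4, a5⟩ := h2 G A e H hA hab hO hcm
  have b4 : (N.index : ℝ) ≤ c1 * (Nat.card G : ℝ) ^ (δ / 2) := by
    have b2 := Mx.mxrep_log hε Nat.card_pos a5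
    have b3 : (N.index : ℝ) ≤ m * d := by exact_mod_cast a4.trans (Nat.mul_le_mul_left _ hH)
    have b5 := mul_le_mul_of_nonneg_right b2 (Nat.cast_nonneg (α := ℝ) d)
    rw [e1]
    linarith
  have hN1 : (1 : ℝ) ≤ (Nat.card G : ℝ) := by exact_mod_cast Nat.card_pos
  have hE : (1 : ℝ) ≤ (Nat.card G : ℝ) ^ (δ / 2) := Real.one_le_rpow hN1 hε.le
  have hEE : (Nat.card G : ℝ) ^ δ = (Nat.card G : ℝ) ^ (δ / 2) * (Nat.card G : ℝ) ^ (δ / 2) := by
    rw [← Real.rpow_add (by linarith), add_halves]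
  have hS : (1 : ℝ) ≤ Module.finrank L (LinearMap.range (∑ l, β l • σ (h l))) := by
    have : Module.finrank L (LinearMap.range (∑ l, β l • σ (h l))) ≠ 0 := fun h0 =>
      hM (LinearMap.range_eq_bot.1 (Submodule.finrank_eq_zero.1 h0))
    exact_mod_cast Nat.one_le_iff_ne_zero.2 this
  obtain ⟨S, hSe⟩ : ∃ S : ℝ, S = Module.finrank L (LinearMap.range (∑ l, β l • σ (h l))) :=
    ⟨_, rfl⟩
  obtain ⟨E, hEe⟩ : ∃ E : ℝ, E = (Nat.card G : ℝ) ^ (δ / 2) := ⟨_, rfl⟩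
  rw [hEE, ← hSe]
  rw [← hSe] at hS
  rw [← hEe] at hE b4 ⊢
  have hES : 1 ≤ E * S := one_le_mul_of_one_le_of_one_le hE hS
  have hq : (0 : ℝ) ≤ (2 * q + 1) / c0 := by positivity
  have hT : 0 ≤ c1 * E := by positivity
  have fin : ∀ r : ℝ, r ≤ (1 + (2 * q + 1) / c0) * (E * S) → 0 ≤ r →
      r * N.index ≤ (1 + c1 * (1 + (2 * q + 1) / c0)) * (E * E) * S := fun r hr h0 => by
    have k1 : r * N.index ≤ (1 + (2 * q + 1) / c0) * (E * S) * (c1 * E) :=
      mul_le_mul hr b4 (Nat.cast_nonneg _) (by positivity)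
    have k2 : 0 ≤ E * E * S := by positivity
    nlinarith
  have hidx : ∀ {K K' : Subgroup G}, K ≤ K' → K'.index ≤ K.index := fun {K K'} hK =>
    Nat.le_of_dvd (Nat.pos_of_ne_zero K.index_ne_zero_of_finite) (Subgroup.index_dvd_of_le hK)
  obtain hd | ⟨C, hB, χ, v, v5, v6, v1, v2, v3⟩ :=
    h3 L G V σ (A e) N (hA.normal e le_rfl) hab hO a3 hirr
  · have k1 : (Module.finrank L V : ℝ) ≤ N.index := by exact_mod_cast hd
    have k2 := fin 1 (by nlinarith) zero_le_one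
    linarith
  obtain ⟨b, κ, hσ, hκ, he⟩ := h4 L G V σ C C hB hirr χ v v1 v2 v3
    fun c hc => ⟨⟨c, hc⟩, 1, fun w => (one_smul _ _).symm⟩
  obtain ⟨a, β', hx, hX⟩ := Mx.mxrep_main h6 (fun g => σ g) hB v3.normal χ h β hM b κ hσ hκ he
  have g1 := hC L G C N hB A hA v5 v6 a3 χ a β' v3 hx
  have hdim : (Module.finrank L V : ℝ) ≤ C.relIndex N * N.index := by
    rw [Module.finrank_eq_nat_card_basis b, ← Nat.cast_mul, ← Subgroup.inf_relIndex_right,
      Subgroup.relIndex_mul_index inf_le_right]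
    exact_mod_cast hidx (inf_le_left : C ⊓ N ≤ C)
  have g3 : c0 * C.relIndex N ≤ E * ((2 * q + 1) * S) := by
    rw [← hEe] at g1
    refine g1.trans (mul_le_mul_of_nonneg_left ?_ (by linarith))
    rw [hSe]
    exact_mod_cast hX
  have g4 : (C.relIndex N : ℝ) ≤ (2 * q + 1) / c0 * (E * S) := by
    rw [div_mul_eq_mul_div, le_div_iff₀ hc0]
    linarith
  exact hdim.trans (fin _ (by nlinarith) (Nat.cast_nonneg _))

end Pool.Agent.Work.MP_11a08a_al.Mb
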