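import Pool.Agent.Work.MP_11a08a_al.Mb.Defs
import Pool.Agent.Work.MP_11a08a_al.Mx.Ring

/-!
The ring attached to a character of a normal subgroup that need not be abelian.
-/

set_option autoImplicit false

open scoped commutatorElement

namespace Pool.Agent.Work.MP_11a08a_al.Mb

open Pool.Agent.Work.MP_11a08a_al.Fr (cz cj)

theorem mbring_end (G M L ι : Type) [Group G] [AddCommGroup M] [Finite M] [Field L]
    (P : ι → AddSubgroup M) (act : G →* AddMonoid.End M)
    (hc : ∀ g g', act g * act g' = act g' * act g) (θ : AddChar M L)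
    (hP : ∀ i g, ∀ m ∈ P i, act g m ∈ P i) :
    ∃ (R : Type) (_ : CommRing R) (_ : Fintype R) (u : G →* R) (Ψ : M → AddChar R L),
      Fintype.card R ≤ Nat.card M ∧ (∀ y, (∀ a, Ψ a y = 1) → y = 0) ∧
      (∀ a b y, Ψ (a + b) y = Ψ a y * Ψ b y) ∧
      (∀ (a : M) (g : G) y, Ψ a (u g * y) = Ψ (act g a) y) ∧ (∀ a, Ψ a 1 = θ a) ∧
      ∀ i, ∃ I : Ideal R, ∀ y, y ∈ I ↔ ∀ a ∈ P i, Ψ a y = 1 := by
  let T : Subring (AddMonoid.End M) :=
    { carrier := {x | (∀ g, act g * x = x * act g) ∧ ∀ i, ∀ m ∈ P i, x m ∈ P i}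
      mul_mem' := by
        rintro a b ⟨a1, a2⟩ ⟨b1, b2⟩
        refine ⟨fun g => ?_, fun i m hm => a2 i _ (b2 i m hm)⟩
        rw [← mul_assoc, a1, mul_assoc, b1, mul_assoc]
      one_mem' := ⟨fun g => by rw [mul_one, one_mul], fun _ _ hm => hm⟩
      add_mem' := by
        rintro a b ⟨a1, a2⟩ ⟨b1, b2⟩
        refine ⟨fun g => ?_, fun i m hm => (P i).add_mem (a2 i m hm) (b2 i m hm)⟩
        rw [mul_add, add_mul, a1, b1]
      zero_mem' := ⟨fun g => by rw [mul_zero, zero_mul], fun i _ _ => (P i).zero_mem⟩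
      neg_mem' := by
        rintro a ⟨a1, a2⟩
        refine ⟨fun g => ?_, fun i m hm => (P i).neg_mem (a2 i m hm)⟩
        rw [mul_neg, neg_mul, a1] }
  have hT : ∀ g, act g ∈ T := fun g => ⟨fun g' => hc g' g, fun i => hP i g⟩
  let u1 : G →* T := act.codRestrict T hT
  have hS : ∀ g, u1 g ∈ Subring.center T := by
    intro g
    rw [Subring.mem_center_iff]
    intro t
    apply Subtype.ext
    exact (t.2.1 g).symm
  let u2 : G →* Subring.center T := u1.codRestrict (Subring.center T) hS
  let ρ : Subring.center T →+* AddMonoid.End M := T.subtype.comp (Subring.center T).subtype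
  letI : Module (Subring.center T) M := Module.compHom M ρ
  have hsm : ∀ (g : G) (m : M), u2 g • m = act g m := fun _ _ => rfl
  have hin : ∀ (s : Subring.center T) i, ∀ m ∈ P i, s • m ∈ P i := fun s i m hm => s.1.2.2 i m hm
  obtain ⟨R, i1, i2, _, p, Ψ, hcard, hp, hfa, hΨ⟩ := Mx.mxring_mod (Subring.center T) M L θ
  let I : ι → Ideal R := fun i =>
    { carrier := {y | ∀ a ∈ P i, Ψ a y = 1}
      add_mem' := by
        intro a b ha hb m hm
        rw [AddChar.map_add_eq_mul, ha m hm, hb m hm, one_mul]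
      zero_mem' := fun m _ => AddChar.map_zero_eq_one _
      smul_mem' := by
        intro c x hx m hm
        obtain ⟨c, rfl⟩ := hp c
        obtain ⟨x, rfl⟩ := hp x
        rw [smul_eq_mul, ← map_mul, hΨ, mul_comm, mul_smul, ← hΨ]
        exact hx _ (hin c i m hm) }
  let u : G →* R := (p : Subring.center T →* R).comp u2
  have hu : ∀ g, u g = p (u2 g) := fun _ => rfl
  refine ⟨R, i1, i2, u, Ψ, hcard, hfa, ?_, ?_, ?_, fun i => ⟨I i, fun _ => Iff.rfl⟩⟩
  · intro a b y
    obtain ⟨y, rfl⟩ := hp y
    have h6 : y • (a + b) = y • a + y • b := AddMonoidHom.map_add (ρ y) a b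
    rw [hΨ, hΨ, hΨ, h6, θ.map_add_eq_mul]
  · intro a g y
    obtain ⟨y, rfl⟩ := hp y
    rw [hu, ← map_mul, hΨ, hΨ, mul_comm, mul_smul, hsm]
  · intro a
    rw [← map_one p, hΨ, one_smul]

/-- Conjugation as a homomorphism of the normal subgroup. -/
def mbring_conj {G : Type} [Group G] {B : Subgroup G} (hB : B.Normal) (g : G) : B →* B where
  toFun := cj hB g
  map_one' := by
    apply Subtype.ext
    change g⁻¹ * 1 * g = 1
    group
  map_mul' := by
    intro a b
    apply Subtype.ext
    change g⁻¹ * ((a : G) * b) * g = g⁻¹ * a * g * (g⁻¹ * b * g)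
    group

theorem ring_ex : StmtRing := by
  intro G _ _ B N hB hN L _ χ
  have hsur : Function.Surjective (Abelianization.of : B → Abelianization B) :=
    fun x => QuotientGroup.mk_surjective x
  have key : ∀ (g g2 : N) (a : B), Abelianization.of (cj hB ((g : G) * g2) a) =
      Abelianization.of (cj hB g (cj hB g2 a)) := by
    intro g g2 a
    have hb : ⁅(g : G)⁻¹, (g2 : G)⁻¹⁆ ∈ B := hN _ (N.inv_mem g.2) _ (N.inv_mem g2.2)
    have h1 : cj hB ((g : G) * g2) a =
        (⟨_, hb⟩ : B)⁻¹ * cj hB g (cj hB g2 a) * (⟨_, hb⟩ : B) := by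
      apply Subtype.ext
      change ((g : G) * g2)⁻¹ * a * (g * g2) =
        ⁅(g : G)⁻¹, (g2 : G)⁻¹⁆⁻¹ * ((g : G)⁻¹ * ((g2 : G)⁻¹ * a * g2) * g) *
          ⁅(g : G)⁻¹, (g2 : G)⁻¹⁆
      rw [commutatorElement_def]
      group
    rw [h1, map_mul, map_mul, map_inv, inv_mul_cancel_comm]
  let ac : N → AddMonoid.End (Additive (Abelianization B)) := fun g =>
    MonoidHom.toAdditive (Abelianization.map (mbring_conj hB g))
  have hac : ∀ (g : N) (a : B), ac g (Additive.ofMul (Abelianization.of a)) =
      Additive.ofMul (Abelianization.of (cj hB g a)) := fun _ _ => rfl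
  have hext : ∀ x y : AddMonoid.End (Additive (Abelianization B)),
      (∀ a : B, x (Additive.ofMul (Abelianization.of a)) =
        y (Additive.ofMul (Abelianization.of a))) → x = y := by
    intro x y hxy
    apply AddMonoidHom.ext
    intro m
    obtain ⟨a, ha⟩ := hsur m.toMul
    have : m = Additive.ofMul (Abelianization.of a) := by rw [ha]; rfl
    rw [this]
    exact hxy a
  let act : N →* AddMonoid.End (Additive (Abelianization B)) :=
    { toFun := ac
      map_one' := by
        apply hext
        intro a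
        rw [hac]
        have : cj hB ((1 : N) : G) a = a := by
          apply Subtype.ext
          change (1 : G)⁻¹ * a * 1 = a
          group
        rw [this]
        rfl
      map_mul' := by
        intro g g2
        apply hext
        intro a
        exact congrArg Additive.ofMul (key g g2 a) }
  let θ : AddChar (Additive (Abelianization B)) L :=
    { toFun := fun m => (Abelianization.lift χ.toHomUnits m.toMul : Lˣ)
      map_zero_eq_one' := by rw [toMul_zero, map_one, Units.val_one]
      map_add_eq_mul' := fun a b => by rw [toMul_add, map_mul, Units.val_mul] }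
  let P : {A : Subgroup G // A.Normal} → AddSubgroup (Additive (Abelianization B)) := fun A =>
    Subgroup.toAddSubgroup ((A.1.subgroupOf B).map Abelianization.of)
  have hP : ∀ A (m : Additive (Abelianization B)), m ∈ P A ↔
      ∃ a : B, (a : G) ∈ A.1 ∧ Abelianization.of a = m.toMul := fun _ _ => Iff.rfl
  obtain ⟨R, i1, i2, u, Ψ, hcard, hfa, hadd, hact, hone, hI⟩ :=
    mbring_end N (Additive (Abelianization B)) L _ P act (by
      intro g g2
      apply hext
      intro a
      have h2 : cj hB ((g : G) * g2) a = cj hB g2 (cj hB g a) := by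
        apply Subtype.ext
        change ((g : G) * g2)⁻¹ * a * (g * g2) = (g2 : G)⁻¹ * ((g : G)⁻¹ * a * g) * g2
        group
      have h3 := key g g2 a
      rw [h2] at h3
      exact congrArg Additive.ofMul h3.symm) θ (by
      intro A g m hm
      obtain ⟨a, ha, e⟩ := (hP A m).1 hm
      have : m = Additive.ofMul (Abelianization.of a) := by rw [e]; rfl
      rw [this]
      exact (hP A _).2 ⟨cj hB g a, A.2.conj_mem' _ ha g, rfl⟩)
  refine ⟨R, i1, i2, u, fun a => Ψ (Additive.ofMul (Abelianization.of a)), ?_, ?_, ?_, ?_, ?_, ?_⟩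
  · exact hcard.trans ((Nat.card_le_card_of_surjective _ hsur).trans
      (Subgroup.card_le_card_group B))
  · intro y hy
    refine hfa y fun m => ?_
    obtain ⟨a, ha⟩ := hsur m.toMul
    have : m = Additive.ofMul (Abelianization.of a) := by rw [ha]; rfl
    rw [this]
    exact hy a
  · intro a b y
    rw [map_mul]
    exact hadd _ _ y
  · intro a g y
    exact hact _ g y
  · intro a
    exact hone _
  · intro A hA
    obtain ⟨I, h⟩ := hI ⟨A, hA⟩
    refine ⟨I, fun y => (h y).trans ⟨fun h1 a ha => h1 _ ((hP _ _).2 ⟨a, ha, rfl⟩), ?_⟩⟩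
    intro h1 m hm
    obtain ⟨a, ha, e⟩ := (hP _ m).1 hm
    have : m = Additive.ofMul (Abelianization.of a) := by rw [e]; rfl
    rw [this]
    exact h1 a ha

end Pool.Agent.Work.MP_11a08a_al.Mb
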