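import Pool.Agent.Work.MP_11a08a_al.Mb.Defs

/-!
The case in which all proper kernels are small.
-/

set_option autoImplicit false

open Finset

namespace Pool.Agent.Work.MP_11a08a_al.Mb

open Pool.Agent.Work.MP_11a08a_al.Af (Grp)

theorem mbsmall_ev {R K : Type} [CommRing R] [Field K] {q : ℕ} (β : Fin q → K)
    (ψ : Fin q → AddChar R K) (t : R) :
    ev β (fun l => (ψ l).mulShift t) (fun l => (ψ l).mulShift (1 - t)) =
      fun u => ∑ l, β l * ψ l u := by
  funext u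
  unfold ev
  refine Finset.sum_congr rfl fun l _ => ?_
  rw [mul_assoc, AddChar.mulShift_apply, AddChar.mulShift_apply, ← AddChar.map_add_eq_mul]
  congr 2
  ring

open Classical in
theorem mbsmall_bad {R : Type} [CommRing R] (U : Finset R) (J : ℕ → Ideal R) (e : ℕ)
    (I : Ideal R) (x : ℝ) (hx : 0 ≤ x)
    (htu : ∀ u ∈ U, (∀ i < e, Triv J i u → ∀ v ∈ U, Triv J i v) → ∃ y, 1 - (u - 1) * y ∈ I)
    (hsm : ∀ i < e, (∃ v ∈ U, ¬ Triv J i v) → x * #(U.filter fun u => Triv J i u) ≤ #U) :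
    x * #(U.filter fun u => ¬ ∃ y, 1 - (u - 1) * y ∈ I) ≤ (e + 1) * #U := by
  set S : Finset ℕ := (range e).filter fun i => ∃ v ∈ U, ¬ Triv J i v with hS
  have hsub : (U.filter fun u => ¬ ∃ y, 1 - (u - 1) * y ∈ I) ⊆
      S.biUnion fun i => U.filter fun u => Triv J i u := by
    intro u hu
    rw [mem_filter] at hu
    obtain ⟨huU, hb⟩ := hu
    by_contra hcon
    refine hb (htu u huU fun i hi hti v hv => ?_)
    by_contra hv'
    refine hcon (mem_biUnion.2 ⟨i, ?_, mem_filter.2 ⟨huU, hti⟩⟩)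
    rw [hS, mem_filter, mem_range]
    exact ⟨hi, v, hv, hv'⟩
  have h1 : (#(U.filter fun u => ¬ ∃ y, 1 - (u - 1) * y ∈ I) : ℝ) ≤
      ∑ i ∈ S, (#(U.filter fun u => Triv J i u) : ℝ) := by
    exact_mod_cast (card_le_card hsub).trans card_biUnion_le
  have h2 : ∑ i ∈ S, x * (#(U.filter fun u => Triv J i u) : ℝ) ≤ ∑ _i ∈ S, (#U : ℝ) := by
    refine sum_le_sum fun i hi => ?_
    rw [hS, mem_filter, mem_range] at hi
    exact hsm i hi.1 hi.2
  have h3 : (#S : ℝ) ≤ e + 1 := by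
    have : #S ≤ e := (card_filter_le _ _).trans (card_range e).le
    have h' : (#S : ℝ) ≤ e := by exact_mod_cast this
    linarith
  rw [sum_const, nsmul_eq_mul, ← mul_sum] at h2
  calc _ ≤ x * ∑ i ∈ S, (#(U.filter fun u => Triv J i u) : ℝ) :=
        mul_le_mul_of_nonneg_left h1 hx
    _ ≤ #S * #U := h2
    _ ≤ _ := mul_le_mul_of_nonneg_right h3 (Nat.cast_nonneg _)

theorem small (h1 : StmtFit) (h2 : StmtPet) (h3 : StmtQuo) : StmtSmall := by
  intro η ε hη hε q e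
  obtain ⟨n, hn⟩ := h2 e q
  obtain ⟨c, hc, H⟩ := h3 η ε hη hε n e
  refine ⟨c / (n + 1), by positivity, ?_⟩
  intro R K _ _ _ U J hU hJ hsm β ψ hne
  obtain ⟨t, ht, hty, htu⟩ := h1 R U J e hJ
  have hev := mbsmall_ev β ψ t
  have hx : (0 : ℝ) ≤ (Fintype.card R : ℝ) ^ η := Real.rpow_nonneg (Nat.cast_nonneg _) _
  have hy : (0 : ℝ) ≤ (Fintype.card R : ℝ) ^ ε := Real.rpow_nonneg (Nat.cast_nonneg _) _
  have hD : Done U (Ideal.span {t})
      (ev β (fun l => (ψ l).mulShift t) (fun l => (ψ l).mulShift (1 - t))) n := by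
    refine hn R K U (Ideal.span {t}) hU β _ _ (fun l y hy => ?_) (fun l y hy => ?_) ?_
    · obtain ⟨a, rfl⟩ := Ideal.mem_span_singleton'.1 hy
      have : (1 - t) * (a * t) = 0 := by linear_combination (-a) * ht
      rw [AddChar.mulShift_apply, this, AddChar.map_zero_eq_one]
    · rw [AddChar.mulShift_apply, hty y hy, AddChar.map_zero_eq_one]
    · rw [hev]
      exact hne
  rw [hev] at hD
  obtain ⟨ι, _, β', φ', hcard, htriv, hne', hcnt⟩ := hD
  have hb := mbsmall_bad U J e (Ideal.span {t}) _ hx htu hsm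
  have hQ := H R K U (Ideal.span {t}) hU (by convert hb) ι β' φ' hcard htriv hne'
  have hcnt' : (cnt U (fun u => ∑ l, β' l * φ' l u) : ℝ) ≤
      (n + 1) * cnt U fun u => ∑ l, β l * ψ l u := by
    have h' : (cnt U (fun u => ∑ l, β' l * φ' l u) : ℝ) ≤
        n * cnt U fun u => ∑ l, β l * ψ l u := by exact_mod_cast hcnt
    have h0 : (0 : ℝ) ≤ cnt U fun u => ∑ l, β l * ψ l u := Nat.cast_nonneg _
    linarith
  have hn1 : (0 : ℝ) < n + 1 := by positivity
  rw [div_mul_eq_mul_div, div_le_iff₀ hn1]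
  calc _ ≤ _ := hQ
    _ ≤ (Fintype.card R : ℝ) ^ ε * ((n + 1) * cnt U fun u => ∑ l, β l * ψ l u) :=
        mul_le_mul_of_nonneg_left hcnt' hy
    _ = _ := by ring

end Pool.Agent.Work.MP_11a08a_al.Mb
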