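import Pool.Agent.Work.MP_11a08a_al.Af.CE
import Pool.Agent.Work.MP_11a08a_al.Af.Main
import Pool.Agent.Work.MP_11a08a_al.Cp.Mono
import Pool.Agent.Work.MP_11a08a_al.Fr.Ab0
import Pool.Agent.Work.MP_11a08a_al.Fr.Ab1
import Pool.Agent.Work.MP_11a08a_al.Mb.Chain
import Pool.Agent.Work.MP_11a08a_al.Mb.Count
import Pool.Agent.Work.MP_11a08a_al.Mb.Eig
import Pool.Agent.Work.MP_11a08a_al.Mb.Fit
import Pool.Agent.Work.MP_11a08a_al.Mb.Kill1
import Pool.Agent.Work.MP_11a08a_al.Mb.KillS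
import Pool.Agent.Work.MP_11a08a_al.Mb.Max
import Pool.Agent.Work.MP_11a08a_al.Mb.NT
import Pool.Agent.Work.MP_11a08a_al.Mb.Pet
import Pool.Agent.Work.MP_11a08a_al.Mb.Quo
import Pool.Agent.Work.MP_11a08a_al.Mb.Red
import Pool.Agent.Work.MP_11a08a_al.Mb.Rep
import Pool.Agent.Work.MP_11a08a_al.Mb.Ring
import Pool.Agent.Work.MP_11a08a_al.Mb.Small
import Pool.Agent.Work.MP_11a08a_al.Mx.Ab
import Pool.Agent.Work.MP_11a08a_al.Mx.Cyc
import Pool.Agent.Work.MP_11a08a_al.Mx.Ring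
import Pool.Agent.Work.MP_11a08a_al.Mx.Struct
import Pool.Agent.Work.MP_11a08a_al.Sol.Main

/-!
The rank bound over every field.
-/

set_option autoImplicit false

open Finset Module
open scoped commutatorElement

namespace Pool.Agent.Work.MP_11a08a_al.Mb

open Pool.Agent.Work.MP_11a08a_al.Fr (cz)

theorem nt_all : StmtNT :=
  nt (small fit (pet kill1 killS)
    (quo (Af.nt (Af.nt1 Af.bgk_all Af.nt0_all) (Af.sub Af.sel Fr.idx))))

theorem rep_all : StmtRep :=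
  rep (red (Mx.ab Fr.ab0 Fr.ab1 (Mx.cyc Mx.ring_ex)) (Mx.cyc Mx.ring_ex)) (eig (max_ex Af.ce))
    Mx.struct (count nt_all ring_ex chain) Cp.mono

theorem final (ε : ℝ) (hε : 0 < ε) (q d e : ℕ) : ∃ N : ℕ, ∀ n > N,
    ∀ (F : Type) [Field F] (G : Type) [Group G] [Finite G] (A : ℕ → Subgroup G)
      (H : Subgroup G), Ser A e → (∀ a ∈ A e, ∀ b ∈ A e, a * b = b * a) → Out (A e) →
      H.index ≤ d → (∀ x ∈ ⁅H, H⁆, ∀ y ∈ ⁅H, H⁆, ⁅x, y⁆ ∈ cz (A e)) →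
      ∀ ρ : Representation F G (Fin n → F), ρ.IsIrreducible → (Nat.card G : ℝ) ^ ε ≤ n →
      ∀ (h : Fin q → G) (α : Fin q → F), ∑ l, α l • ρ (h l) ≠ 0 →
        (n : ℝ) ^ (1 - ε) ≤ finrank F (LinearMap.range (∑ l, α l • ρ (h l))) := by
  obtain ⟨c, hc, K⟩ := rep_all (ε ^ 2 / 2) (by positivity) q d e
  obtain ⟨N, hN⟩ := Sol.fin_num ε hε c hc
  refine ⟨N, fun n hn F _ G _ _ A H hA hab hO hd hH ρ hirr hg h α hne => ?_⟩
  have := Fintype.ofFinite G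
  refine hN n hn (Nat.card G) _ hg ?_
  exact Sol.fin_step Sol.ideal Sol.change ρ α h hirr hne (AlgebraicClosure F)
    (Or.inl ⟨algebraMap _ _⟩) (by positivity)
    fun β V _ _ _ σ a b => K _ G V σ A H hA hab hO hd hH a h β b

end Pool.Agent.Work.MP_11a08a_al.Mb
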