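import Pool.Agent.Work.MP_11a08a_al.Mb.Emb
import Pool.Agent.Work.MP_11a08a_al.Mb.Final
import Pool.Agent.Work.MP_11a08a_al.Mx.Fac

/-!
The theorem for products of free pieces is a special case.
-/

set_option autoImplicit false

open Finset Module
open scoped commutatorElement

namespace Pool.Agent.Work.MP_11a08a_al.Mb

open Pool.Agent.Work.MP_11a08a_al.Fr (cz)

theorem mix_of_final (ε : ℝ) (hε : 0 < ε) (q d e : ℕ) : ∃ N : ℕ, ∀ n > N,
    ∀ (F : Type) [Field F] (G : Type) [Group G] [Finite G] (A : Fin (e + 1) → Subgroup G)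
      (H H₀ : Subgroup G), Mx.MixG A H → H₀.index ≤ d →
      (∀ x ∈ ⁅H₀, H₀⁆, ∀ y ∈ ⁅H₀, H₀⁆, ⁅x, y⁆ ∈ cz (⨆ i, A i)) →
      ∀ ρ : Representation F G (Fin n → F), ρ.IsIrreducible → (Nat.card G : ℝ) ^ ε ≤ n →
      ∀ (h : Fin q → G) (α : Fin q → F), ∑ l, α l • ρ (h l) ≠ 0 →
        (n : ℝ) ^ (1 - ε) ≤ finrank F (LinearMap.range (∑ l, α l • ρ (h l))) := by
  obtain ⟨N, hN⟩ := final ε hε q d (e + 1)
  refine ⟨N, fun n hn F _ G _ _ A H H₀ hA hd hH => ?_⟩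
  obtain ⟨S, h1, h2, h3⟩ := emb Mx.fac G e A H hA
  rw [← h2] at h3 hH
  refine hN n hn F G S H₀ h1 ?_ h3 hd hH
  rw [h2]
  exact (Mx.fac G _ A (fun i => (hA.piece i).normal) hA.comm).2.1

end Pool.Agent.Work.MP_11a08a_al.Mb
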