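import Pool.Agent.Work.MP_11a08a_al.Mb.Defs

/-!
The step of the removal of a class of terms.
-/

set_option autoImplicit false

namespace Pool.Agent.Work.MP_11a08a_al.Mb

open Pool.Agent.Work.MP_11a08a_al.Af (Grp)

theorem mbkills_done {R K : Type} [CommRing R] [Field K] {U : Finset R} {I : Ideal R}
    {f g : R → K} {n m : ℕ} (h : Done U I f n) (hn : n ≤ m) (hc : n * cnt U f ≤ m * cnt U g) :
    Done U I g m := by
  obtain ⟨ι, i, β, φ, a, b, c, d⟩ := h
  exact ⟨ι, i, β, φ, a.trans hn, b, c, d.trans hc⟩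

theorem mbkills_inner (j : ℕ) (hK : Kill j) (r : ℕ) : ∀ s : ℕ, ∃ n : ℕ,
    ∀ (R K : Type) [CommRing R] [Field K] (U : Finset R) (I : Ideal R), Grp U →
    ∀ (ι : Type) [Fintype ι] (β : ι → K) (lam φ : ι → AddChar R K) (T : Set ι) (x : AddChar R K)
      (mu : Fin r → AddChar R K), Fintype.card ι ≤ s → (∀ l, ∀ y ∈ I, φ l y = 1) →
      (∀ k, Rel U (j + 1) (mu k) x) → (∀ l ∈ T, ∃ k, Rel U j (lam l) (mu k)) →
      (∃ u ∈ U, ev β lam φ u ≠ 0) →
      Done U I (ev β lam φ) n ∨ Next U I β lam φ T x (j + 1) n := by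
  induction r with
  | zero =>
    intro s
    refine ⟨s + 1, fun R K _ _ U I _ ι i β lam φ T x mu a b _ d e => Or.inr
      ⟨ι, i, β, lam, φ, id, a.trans (Nat.le_succ s), b, e,
        Nat.le_mul_of_pos_left _ (Nat.succ_pos s), fun l => ⟨fun h => ?_, fun _ _ _ => Rel.refl _ _ _⟩⟩⟩
    obtain ⟨k, -⟩ := d l h
    exact k.elim0
  | succ r ih =>
    intro s
    obtain ⟨n1, h1⟩ := hK s
    obtain ⟨n2, h2⟩ := ih n1
    refine ⟨n1 * n2 + n1 + n2, fun R K _ _ U I hU ι _ β lam φ T x mu a b c d e => ?_⟩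
    have m1 : n1 ≤ n1 * n2 + n1 + n2 := by omega
    have m2 : n2 ≤ n1 * n2 + n1 + n2 := by omega
    have m3 : ∀ {p q : ℕ}, p ≤ n1 * q → n2 * p ≤ (n1 * n2 + n1 + n2) * q := fun {p q} h =>
      (Nat.mul_le_mul_left _ h).trans (by
        rw [← mul_assoc, mul_comm n2]
        exact Nat.mul_le_mul_right _ (by omega))
    rcases h1 R K U I hU ι β lam φ {l | l ∈ T ∧ Rel U j (lam l) (mu 0)} (mu 0) a b
      (fun l hl => hl.2) e with h | ⟨ι2, i2, β2, lam2, φ2, π, c1, c2, c3, c4, c5⟩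
    · exact Or.inl (mbkills_done h m1 (Nat.mul_le_mul_right _ m1))
    have hT : ∀ l ∈ {l | π l ∈ T}, ∃ k : Fin r, Rel U j (lam2 l) (mu k.succ) := by
      intro l hl
      obtain ⟨k, hk⟩ := d _ hl
      have q := (c5 l).2 j le_rfl (((hk.mono (Nat.le_succ j)).trans (c k)).trans (c 0).symm)
      cases k using Fin.cases with
      | zero => exact absurd ⟨hl, hk⟩ (c5 l).1
      | succ k => exact ⟨k, q.trans hk⟩
    rcases h2 R K U I hU ι2 β2 lam2 φ2 {l | π l ∈ T} x (fun k => mu k.succ) c1 c2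
      (fun k => c k.succ) hT c3 with h | ⟨ι3, i3, β3, lam3, φ3, π3, d1, d2, d3, d4, d5⟩
    · exact Or.inl (mbkills_done h m2 (m3 c4))
    · refine Or.inr ⟨ι3, i3, β3, lam3, φ3, fun l => π (π3 l), d1.trans m2, d2, d3,
        d4.trans (m3 c4), fun l => ⟨(d5 l).1, fun i hi h => ?_⟩⟩
      have k := (c5 (π3 l)).2 i (by omega) (h.trans ((c 0).symm.mono (by omega)))
      exact ((d5 l).2 i hi ((k.mono (Nat.le_succ i)).trans h)).trans k

theorem killS : StmtKillS := by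
  classical
  intro j hK s
  obtain ⟨n, h⟩ := mbkills_inner j hK s s
  refine ⟨n, fun R K _ _ U I hU ι _ β lam φ T x a b c e => ?_⟩
  obtain ⟨f⟩ := Function.Embedding.nonempty_of_card_le (α := ι) (β := Fin s) (by simpa using a)
  refine h R K U I hU ι β lam φ T x
    (fun k => if h : ∃ l, l ∈ T ∧ f l = k then lam h.choose else x) a b (fun k => ?_)
    (fun l hl => ⟨f l, ?_⟩) e
  · split_ifs with q
    · exact c _ q.choose_spec.1
    · exact Rel.refl _ _ _
  · have q : ∃ l', l' ∈ T ∧ f l' = f l := ⟨l, hl, rfl⟩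
    rw [dif_pos q, f.injective q.choose_spec.2]
    exact Rel.refl _ _ _

end Pool.Agent.Work.MP_11a08a_al.Mb
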